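import Pool.Agent.Lib.MP_a221bc_loc.Main

/-!
# Local reductions from parity to MCSP: the asymptotic form
-/

namespace Pool.Agent.Lib.LocMCSP

open Pool.Agent.Lib.EsopHard Pool.Agent.Lib.MultiMCSP Filter Asymptotics

theorem Inst.Ok.mono {I : Inst} {R S k k' : ℕ} (h : I.Ok R S k) (hk : k ≤ k') : I.Ok R S k' :=
  ⟨h.vars, h.wires, h.size, h.queries.trans hk, h.out⟩

theorem Tree.Ok.mono {J R S k k' : ℕ} (hk : k ≤ k') : ∀ {t : Tree}, t.Ok J R S k → t.Ok J R S k'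
  | .leaf _, h => ⟨h.1, fun I hI => (h.2 I hI).mono hk⟩
  | .node _ _ _, h => ⟨Tree.Ok.mono hk h.1, Tree.Ok.mono hk h.2⟩

/-- the logarithm of the bound for the number of tables -/
theorem log_bound {δ : ℝ} (C : ℕ) (hδ : 0 ≤ δ) (hδ1 : δ ≤ 1) {n J R S : ℕ} (hn4 : 4 ≤ n)
    (hJ : J ≤ n ^ C) (hR : R ≤ n ^ C) (hS : (S : ℝ) ≤ (n : ℝ) ^ δ) :
    Real.log 2 + Real.log J + (2 * S + 3) * Real.log (2 * ((R : ℝ) + S + 1)) ≤
      (6 * C + 21) * ((n : ℝ) ^ δ * Real.log n) := by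
  have hnR : (4 : ℝ) ≤ n := by exact_mod_cast hn4
  have hn0 : (0 : ℝ) < n := by linarith
  have hn1 : (1 : ℝ) ≤ n := by linarith
  have hlog0 : 0 ≤ Real.log n := Real.log_nonneg hn1
  have hlog2 : Real.log 2 ≤ Real.log n := Real.log_le_log (by norm_num) (by linarith)
  have b1 : Real.log J ≤ C * Real.log n := by
    rcases Nat.eq_zero_or_pos J with h0 | h0
    · rw [h0]
      simp only [Nat.cast_zero, Real.log_zero]
      positivity
    · have : (J : ℝ) ≤ (n : ℝ) ^ C := by exact_mod_cast hJ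
      have h2 := Real.log_le_log (by exact_mod_cast h0) this
      rwa [Real.log_pow] at h2
  have hnδ : (n : ℝ) ^ δ ≤ n := by
    calc (n : ℝ) ^ δ ≤ (n : ℝ) ^ (1 : ℝ) := Real.rpow_le_rpow_of_exponent_le hn1 hδ1
      _ = n := Real.rpow_one _
  have h1δ : 1 ≤ (n : ℝ) ^ δ := Real.one_le_rpow hn1 hδ
  have b2 : Real.log (2 * ((R : ℝ) + S + 1)) ≤ (C + 4) * Real.log n := by
    have hRr : (R : ℝ) ≤ (n : ℝ) ^ C := by exact_mod_cast hR
    have e1 : (n : ℝ) ^ C ≤ (n : ℝ) ^ (C + 1) := pow_le_pow_right₀ hn1 (by omega)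
    have e2 : (n : ℝ) ≤ (n : ℝ) ^ (C + 1) := by
      calc (n : ℝ) = (n : ℝ) ^ 1 := (pow_one _).symm
        _ ≤ (n : ℝ) ^ (C + 1) := pow_le_pow_right₀ hn1 (by omega)
    have h2 : 2 * ((R : ℝ) + S + 1) ≤ (n : ℝ) ^ (C + 4) := by
      have h3 : 2 * ((R : ℝ) + S + 1) ≤ 6 * (n : ℝ) ^ (C + 1) := by
        have : (1 : ℝ) ≤ (n : ℝ) ^ (C + 1) := hn1.trans e2
        linarith
      have h4 : (6 : ℝ) ≤ (n : ℝ) ^ 3 := by
        have : (4 : ℝ) ^ 3 ≤ (n : ℝ) ^ 3 := pow_le_pow_left₀ (by norm_num) hnR 3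
        linarith
      calc 2 * ((R : ℝ) + S + 1) ≤ 6 * (n : ℝ) ^ (C + 1) := h3
        _ ≤ (n : ℝ) ^ 3 * (n : ℝ) ^ (C + 1) := mul_le_mul_of_nonneg_right h4 (by positivity)
        _ = (n : ℝ) ^ (C + 4) := by ring
    have h5 := Real.log_le_log (by positivity) h2
    rw [Real.log_pow] at h5
    push_cast at h5
    exact h5
  have b2' : 0 ≤ Real.log (2 * ((R : ℝ) + S + 1)) := by
    apply Real.log_nonneg
    have : (0 : ℝ) ≤ R := Nat.cast_nonneg R
    have : (0 : ℝ) ≤ S := Nat.cast_nonneg S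
    linarith
  have e1 : (2 * (S : ℝ) + 3) * Real.log (2 * ((R : ℝ) + S + 1)) ≤
      5 * (n : ℝ) ^ δ * ((C + 4) * Real.log n) :=
    mul_le_mul (by linarith) b2 b2' (by positivity)
  have e2 : Real.log n ≤ (n : ℝ) ^ δ * Real.log n := le_mul_of_one_le_left hlog0 h1δ
  have e3 : (C : ℝ) * Real.log n ≤ C * ((n : ℝ) ^ δ * Real.log n) :=
    mul_le_mul_of_nonneg_left e2 (Nat.cast_nonneg C)
  nlinarith

/-- the inequality in logarithmic form -/
theorem main_log {n q J R S k : ℕ} (hk : 1 ≤ k) (hq : q < n) (t : Tree) (hd : t.depth ≤ q)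
    (ht : t.Ok J R S k) (hred : Reduces n t) :
    ((n : ℝ) - q) * Real.log 2 ≤
      4 * k * (Real.log 2 + Real.log J + (2 * S + 3) * Real.log (2 * (R + S + 1))) := by
  have h := main hk hq t hd ht hred
  have hJ : J ≠ 0 := by
    rintro rfl
    rw [Nat.zero_mul, Nat.mul_zero, Nat.zero_pow (by omega)] at h
    have : 0 < 2 ^ (n - q) := by positivity
    omega
  have h1 : ((2 : ℝ)) ^ (n - q) ≤ (2 * (J * (2 * (R + S + 1)) ^ (2 * S + 3))) ^ (4 * k) := by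
    exact_mod_cast h
  have h2 := Real.log_le_log (by positivity) h1
  have hJ' : (J : ℝ) ≠ 0 := by exact_mod_cast hJ
  have hM : (2 * ((R : ℝ) + S + 1)) ≠ 0 := by positivity
  rw [Real.log_pow, Real.log_pow, Real.log_mul (by norm_num) (by positivity),
    Real.log_mul hJ' (by positivity), Real.log_pow, Nat.cast_sub hq.le] at h2
  push_cast at h2
  linarith

/-- **The asymptotic form.** -/
theorem asym (δ κ : ℝ) (C : ℕ) (hδ : 0 ≤ δ) (hκ : 0 ≤ κ) (h1 : δ + κ < 1) :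
    ∃ n₀ : ℕ, ∀ n ≥ n₀, ∀ (q J R S k : ℕ) (t : Tree), 2 * q ≤ n → J ≤ n ^ C → R ≤ n ^ C →
      (S : ℝ) ≤ (n : ℝ) ^ δ → (k : ℝ) ≤ (n : ℝ) ^ κ → t.depth ≤ q → t.Ok J R S k → ¬ Reduces n t := by
  set c : ℝ := Real.log 2 / (16 * (6 * C + 21)) with hc
  have hl2 : 0 < Real.log 2 := Real.log_pos (by norm_num)
  have hc0 : 0 < c := by positivity
  have hlo := (isLittleO_log_rpow_atTop (show 0 < 1 - δ - κ by linarith)).bound hc0
  have hev : ∀ᶠ n : ℕ in atTop, ‖Real.log (n : ℝ)‖ ≤ c * ‖((n : ℝ)) ^ (1 - δ - κ)‖ :=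
    tendsto_natCast_atTop_atTop.eventually hlo
  obtain ⟨n₁, hn₁⟩ := eventually_atTop.1 hev
  refine ⟨max n₁ 4, fun n hn q J R S k t hq hJ hR hS hk hd ht hred => ?_⟩
  have hn4 : 4 ≤ n := (le_max_right _ _).trans hn
  have hn' := hn₁ n ((le_max_left _ _).trans hn)
  have hnR : (4 : ℝ) ≤ n := by exact_mod_cast hn4
  have hn0 : (0 : ℝ) < n := by linarith
  have hn1 : (1 : ℝ) ≤ n := by linarith
  have hlog0 : 0 ≤ Real.log n := Real.log_nonneg hn1
  have hlog2 : Real.log 2 ≤ Real.log n := Real.log_le_log (by norm_num) (by linarith)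
  rw [Real.norm_of_nonneg hlog0, Real.norm_of_nonneg (by positivity)] at hn'
  -- at least one query
  have hk1 : (((max k 1 : ℕ)) : ℝ) ≤ (n : ℝ) ^ κ := by
    push_cast
    exact max_le hk (Real.one_le_rpow hn1 hκ)
  have hm := main_log (k := max k 1) (le_max_right _ _) (by omega) t hd (ht.mono (le_max_left _ _)) hred
  have b3 := log_bound C hδ (by linarith) hn4 hJ hR hS
  have h1κ : 1 ≤ (n : ℝ) ^ κ := Real.one_le_rpow hn1 hκ
  have b4 : 4 * ((max k 1 : ℕ) : ℝ) * (Real.log 2 + Real.log J + (2 * S + 3) *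
      Real.log (2 * ((R : ℝ) + S + 1))) ≤ n / 4 * Real.log 2 := by
    have e1 : 4 * ((max k 1 : ℕ) : ℝ) * (Real.log 2 + Real.log J + (2 * S + 3) *
        Real.log (2 * ((R : ℝ) + S + 1))) ≤
        4 * (n : ℝ) ^ κ * ((6 * C + 21) * ((n : ℝ) ^ δ * Real.log n)) := by
      have h0 : 0 ≤ (6 * (C : ℝ) + 21) * ((n : ℝ) ^ δ * Real.log n) := by positivity
      calc _ ≤ 4 * ((max k 1 : ℕ) : ℝ) * ((6 * C + 21) * ((n : ℝ) ^ δ * Real.log n)) :=
            mul_le_mul_of_nonneg_left b3 (by positivity)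
        _ ≤ _ := mul_le_mul_of_nonneg_right (by linarith) h0
    have e2 : (n : ℝ) ^ κ * (n : ℝ) ^ δ * (n : ℝ) ^ (1 - δ - κ) = n := by
      rw [← Real.rpow_add hn0, ← Real.rpow_add hn0]
      rw [show κ + δ + (1 - δ - κ) = 1 by ring, Real.rpow_one]
    have e3 : (n : ℝ) ^ κ * (n : ℝ) ^ δ * Real.log n ≤ c * n := by
      calc (n : ℝ) ^ κ * (n : ℝ) ^ δ * Real.log n ≤
            (n : ℝ) ^ κ * (n : ℝ) ^ δ * (c * (n : ℝ) ^ (1 - δ - κ)) :=
            mul_le_mul_of_nonneg_left hn' (by positivity)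
        _ = c * ((n : ℝ) ^ κ * (n : ℝ) ^ δ * (n : ℝ) ^ (1 - δ - κ)) := by ring
        _ = c * n := by rw [e2]
    have e4 : 4 * (n : ℝ) ^ κ * ((6 * C + 21) * ((n : ℝ) ^ δ * Real.log n)) ≤
        4 * (6 * C + 21) * (c * n) := by
      have : 4 * (n : ℝ) ^ κ * ((6 * C + 21) * ((n : ℝ) ^ δ * Real.log n)) =
          4 * (6 * C + 21) * ((n : ℝ) ^ κ * (n : ℝ) ^ δ * Real.log n) := by ring
      rw [this]
      exact mul_le_mul_of_nonneg_left e3 (by positivity)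
    have e5 : 4 * (6 * (C : ℝ) + 21) * (c * n) = n / 4 * Real.log 2 := by
      rw [hc]
      have : (6 * (C : ℝ) + 21) ≠ 0 := by positivity
      field_simp
      ring
    linarith
  have b5 : (n : ℝ) / 2 * Real.log 2 ≤ ((n : ℝ) - q) * Real.log 2 := by
    apply mul_le_mul_of_nonneg_right _ hl2.le
    have : (2 : ℝ) * q ≤ n := by exact_mod_cast hq
    linarith
  have : (n : ℝ) / 2 * Real.log 2 ≤ n / 4 * Real.log 2 := by linarith
  nlinarith

end Pool.Agent.Lib.LocMCSP
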