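import Pool.Agent.Lib.MP_a221bc_loc.Statement
import Pool.Agent.Lib.MP_a221bc_esop.Red

/-!
# Counting circuits; circuits with all queries answered by zero
-/

namespace Pool.Agent.Lib.LocMCSP

open Pool.Agent.Lib.EsopHard Pool.Agent.Lib.MultiMCSP

/-! ## Counting -/

/-- codes of gates -/
def ofCode {M : ℕ} (c : Fin 3 × Fin M × Fin M) : Gate :=
  if c.1 = 0 then .not c.2.1 else if c.1 = 1 then .and c.2.1 c.2.2 else .or c.2.1 c.2.2

/-- the table of a coded circuit -/
def tabOf (r s : ℕ) (c : (Fin s → Option (Fin 3 × Fin (r + s) × Fin (r + s))) × Fin (r + s)) : List Bool :=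
  (points r).map fun x => (wires ((List.ofFn c.1).filterMap fun o => o.map ofCode) x).getD c.2 false

theorem exists_code {M : ℕ} {g : Gate} {m : ℕ} (h : g.Ok m) (hm : m ≤ M) :
    ∃ c : Fin 3 × Fin M × Fin M, ofCode c = g := by
  rcases g with i | ⟨i, j⟩ | ⟨i, j⟩
  · exact ⟨(0, ⟨i, h.trans_le hm⟩, ⟨i, h.trans_le hm⟩), rfl⟩
  · exact ⟨(1, ⟨i, h.1.trans_le hm⟩, ⟨j, h.2.trans_le hm⟩), rfl⟩
  · exact ⟨(2, ⟨i, h.1.trans_le hm⟩, ⟨j, h.2.trans_le hm⟩), rfl⟩

theorem filterMap_code {M : ℕ} : ∀ (gs : List Gate) (s : ℕ), gs.length ≤ s →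
    (∀ g ∈ gs, ∃ c : Fin 3 × Fin M × Fin M, ofCode c = g) →
    ∃ h : Fin s → Option (Fin 3 × Fin M × Fin M), ((List.ofFn h).filterMap fun o => o.map ofCode) = gs
  | [], s, _, _ => by
    refine ⟨fun _ => none, ?_⟩
    rw [List.filterMap_eq_nil_iff]
    intro o ho
    obtain ⟨i, rfl⟩ := List.mem_ofFn.1 ho
    rfl
  | g :: gs, 0, hs, _ => by simp at hs
  | g :: gs, s + 1, hs, hc => by
    obtain ⟨h, hh⟩ := filterMap_code gs s (by simpa using hs) fun g hg => hc g (List.mem_cons_of_mem _ hg)
    obtain ⟨c, hc⟩ := hc g (List.mem_cons_self ..)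
    refine ⟨Fin.cons (some c) h, ?_⟩
    rw [List.ofFn_succ, Fin.cons_zero]
    simp only [Fin.cons_succ]
    rw [List.filterMap_cons]
    simp only [Option.map_some, hc]
    rw [hh]

theorem hasCircuit_code {r s : ℕ} {T : List Bool} (h : HasCircuit r T s) :
    ∃ c : (Fin s → Option (Fin 3 × Fin (r + s) × Fin (r + s))) × Fin (r + s), tabOf r s c = T := by
  obtain ⟨gs, h1, h2, h3⟩ := h
  obtain ⟨i, hi, hT⟩ := h3 T (List.mem_singleton_self _)
  obtain ⟨f, hf⟩ := filterMap_code (M := r + s) gs s h2 (by
    intro g hg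
    obtain ⟨k, hk, rfl⟩ := List.mem_iff_getElem.1 hg
    exact exists_code (h1 k hk) (by omega))
  refine ⟨(f, ⟨i, by omega⟩), ?_⟩
  rw [tabOf, hT, hf]

/-- the tables of the functions of complexity at most `s` -/
noncomputable def tabsOf (r s : ℕ) : Finset (List Bool) :=
  (Finset.univ : Finset ((Fin s → Option (Fin 3 × Fin (r + s) × Fin (r + s))) × Fin (r + s))).image
    (tabOf r s)

theorem mem_tabsOf {r s : ℕ} {T : List Bool} (h : HasCircuit r T s) : T ∈ tabsOf r s := by
  obtain ⟨c, hc⟩ := hasCircuit_code h
  exact Finset.mem_image.2 ⟨c, Finset.mem_univ _, hc⟩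

theorem card_tabsOf (r s : ℕ) : (tabsOf r s).card ≤ (2 * (r + s)) ^ (2 * s + 1) := by
  refine Finset.card_image_le.trans ?_
  rw [Finset.card_univ, Fintype.card_prod, Fintype.card_fun, Fintype.card_option, Fintype.card_prod,
    Fintype.card_prod, Fintype.card_fin, Fintype.card_fin, Fintype.card_fin]
  rcases Nat.eq_zero_or_pos (r + s) with h | h
  · rw [h]
    simp
  · have e : (2 * (r + s)) ^ (2 * s + 1) = ((2 * (r + s)) ^ 2) ^ s * (2 * (r + s)) := by
      rw [pow_succ, pow_mul]
    rw [e]
    refine Nat.mul_le_mul (Nat.pow_le_pow_left ?_ s) (by omega)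
    nlinarith

theorem not_hasCircuit_zero (T : List Bool) (s : ℕ) : ¬ HasCircuit 0 T s := by
  rintro ⟨gs, h1, -, h3⟩
  obtain ⟨i, hi, -⟩ := h3 T (List.mem_singleton_self _)
  have h0 : 0 < gs.length := by omega
  have := h1 0 h0
  rcases hg : gs[0] with j | ⟨j, l⟩ | ⟨j, l⟩ <;> rw [hg] at this <;> simp [Gate.Ok] at this

theorem HasCircuit.mono {r : ℕ} {T : List Bool} {s s' : ℕ} (h : HasCircuit r T s) (hs : s ≤ s') :
    HasCircuit r T s' := by
  obtain ⟨gs, h1, h2, h3⟩ := h
  exact ⟨gs, h1, h2.trans hs, h3⟩

/-! ## Queries answered by zero -/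

/-- renaming of the wires: two new gates after the `r` inputs -/
def shf (r i : ℕ) : ℕ := if i < r then i else i + 2

/-- queries replaced by the constant false -/
def QGate.zero (r : ℕ) : QGate → Gate
  | .gate (.not i) => .not (shf r i)
  | .gate (.and i j) => .and (shf r i) (shf r j)
  | .gate (.or i j) => .or (shf r i) (shf r j)
  | .query _ => .and (r + 1) (r + 1)

/-- the circuit with all queries answered by zero -/
def zeroC (r : ℕ) (gs : List QGate) : List Gate := [.not 0, .and 0 r] ++ gs.map (QGate.zero r)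

theorem shf_lt {r i m : ℕ} (h : i < m) : shf r i < m + 2 := by
  unfold shf
  split_ifs <;> omega

theorem isCircuit_zeroC {r : ℕ} (hr : 1 ≤ r) {gs : List QGate}
    (h : ∀ (m : ℕ) (h : m < gs.length), gs[m].Ok (r + m)) : IsCircuit r (zeroC r gs) := by
  intro k hk
  have hlen : (zeroC r gs).length = gs.length + 2 := by
    rw [zeroC, List.length_append, List.length_map]
    simp
    omega
  rcases k with _ | _ | k
  · show 0 < r + 0
    omega
  · show 0 < r + 1 ∧ r < r + 1
    omega
  · have hk' : k < gs.length := by omega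
    have e : (zeroC r gs)[k + 2] = (gs[k]).zero r := by
      simp [zeroC]
    rw [e]
    have h1 := h k hk'
    have e3 : r + (k + 1 + 1) = r + k + 2 := by ring
    rcases hg : gs[k] with (i | ⟨i, j⟩ | ⟨i, j⟩) | a
    · rw [hg] at h1
      show shf r i < r + (k + 1 + 1)
      rw [e3]
      exact shf_lt h1
    · rw [hg] at h1
      show shf r i < r + (k + 1 + 1) ∧ shf r j < r + (k + 1 + 1)
      rw [e3]
      exact ⟨shf_lt h1.1, shf_lt h1.2⟩
    · rw [hg] at h1
      show shf r i < r + (k + 1 + 1) ∧ shf r j < r + (k + 1 + 1)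
      rw [e3]
      exact ⟨shf_lt h1.1, shf_lt h1.2⟩
    · show r + 1 < r + (k + 1 + 1) ∧ r + 1 < r + (k + 1 + 1)
      omega

/-- the correspondence of the wires -/
def Sim (r : ℕ) (w w' : List Bool) : Prop :=
  w'.length = w.length + 2 ∧ r ≤ w.length ∧ (∀ i, i < w.length → w'.getD (shf r i) false = w.getD i false) ∧
    w'.getD (r + 1) false = false

theorem sim_step {r : ℕ} {w w' : List Bool} (h : Sim r w w') {x : List Bool} (hx : ∀ j, x.getD j false = false)
    {g : QGate} (hg : g.Ok w.length) : Sim r (w ++ [g.val x w]) (w' ++ [(g.zero r).val w']) := by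
  obtain ⟨h1, h2, h3, h4⟩ := h
  have hval : (g.zero r).val w' = g.val x w := by
    rcases g with (i | ⟨i, j⟩ | ⟨i, j⟩) | a
    · show (!(w'.getD (shf r i) false)) = (!(w.getD i false))
      rw [h3 i hg]
    · show (w'.getD (shf r i) false && w'.getD (shf r j) false) = (w.getD i false && w.getD j false)
      rw [h3 i hg.1, h3 j hg.2]
    · show (w'.getD (shf r i) false || w'.getD (shf r j) false) = (w.getD i false || w.getD j false)
      rw [h3 i hg.1, h3 j hg.2]
    · show (w'.getD (r + 1) false && w'.getD (r + 1) false) = _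
      rw [h4]
      exact (hx _).symm
  refine ⟨by simp [h1], by simp; omega, fun i hi => ?_, ?_⟩
  · rw [List.length_append, List.length_singleton] at hi
    rcases Nat.lt_or_ge i w.length with h5 | h5
    · rw [List.getD_append _ _ _ _ (by rw [h1]; exact shf_lt h5), List.getD_append _ _ _ _ h5, h3 i h5]
    · have e : i = w.length := by omega
      subst e
      have e2 : shf r w.length = w'.length := by
        unfold shf
        rw [if_neg (by omega), h1]
      rw [e2, List.getD_append_right _ _ _ _ le_rfl, List.getD_append_right _ _ _ _ le_rfl, hval]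
      simp
  · rw [List.getD_append _ _ _ _ (by omega), h4]

theorem sim_fold {r : ℕ} {x : List Bool} (hx : ∀ j, x.getD j false = false) : ∀ (gs : List QGate) (w w' : List Bool),
    Sim r w w' → (∀ (m : ℕ) (h : m < gs.length), gs[m].Ok (w.length + m)) →
    Sim r (qwires x gs w) (wires (gs.map (QGate.zero r)) w')
  | [], _, _, h, _ => h
  | g :: gs, w, w', h, ho => by
    have h0 : g.Ok w.length := by
      have := ho 0 (by simp)
      simpa using this
    have := sim_fold hx gs _ _ (sim_step h hx h0) (by
      intro m hm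
      have := ho (m + 1) (by simpa using hm)
      rw [List.length_append, List.length_singleton]
      rw [show w.length + 1 + m = w.length + (m + 1) by ring]
      simpa using this)
    exact this

theorem length_qwires (x : List Bool) (gs : List QGate) (w : List Bool) :
    (qwires x gs w).length = w.length + gs.length := by
  induction gs generalizing w with
  | nil => rfl
  | cons g gs ih =>
    have : qwires x (g :: gs) w = qwires x gs (w ++ [g.val x w]) := rfl
    rw [this, ih, List.length_append, List.length_singleton, List.length_cons]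
    ring

/-- on an input without ones the truth table has a small circuit -/
theorem hasCircuit_table {I : Inst} {R S k : ℕ} (hI : I.Ok R S k) (hr : 1 ≤ I.r) {x : List Bool}
    (hx : ∀ j, x.getD j false = false) : HasCircuit I.r (I.table x) (S + 2) := by
  refine ⟨zeroC I.r I.gs, isCircuit_zeroC hr hI.wires, ?_, ?_⟩
  · rw [zeroC, List.length_append, List.length_map]
    have := hI.size
    simp
    omega
  · intro T hT
    rw [List.mem_singleton] at hT
    subst hT
    refine ⟨shf I.r I.out, ?_, ?_⟩
    · have h1 := shf_lt (r := I.r) hI.out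
      rw [zeroC, List.length_append, List.length_map]
      simp
      omega
    · rw [Inst.table]
      refine List.map_inj_left.2 fun y hy => ?_
      have hy' : y.length = I.r := mem_points.1 hy
      have e : wires (zeroC I.r I.gs) y = wires (I.gs.map (QGate.zero I.r))
          (y ++ [!(y.getD 0 false)] ++ [(y ++ [!(y.getD 0 false)]).getD 0 false &&
            (y ++ [!(y.getD 0 false)]).getD I.r false]) := rfl
      have hsim : Sim I.r y (y ++ [!(y.getD 0 false)] ++ [(y ++ [!(y.getD 0 false)]).getD 0 false &&
            (y ++ [!(y.getD 0 false)]).getD I.r false]) := by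
        refine ⟨by simp, hy'.ge, fun i hi => ?_, ?_⟩
        · have e1 : shf I.r i = i := by
            unfold shf
            rw [if_pos (by omega)]
          rw [e1, List.getD_append _ _ _ _ (by simp; omega), List.getD_append _ _ _ _ hi]
        · rw [List.getD_append_right _ _ _ _ (by simp; omega)]
          have e1 : (y ++ [!(y.getD 0 false)]).getD 0 false = y.getD 0 false :=
            List.getD_append _ _ _ _ (by omega)
          have e2 : (y ++ [!(y.getD 0 false)]).getD I.r false = !(y.getD 0 false) := by
            rw [List.getD_append_right _ _ _ _ (by omega), hy']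
            simp
          rw [e1, e2]
          have e3 : I.r + 1 - (y ++ [!(y.getD 0 false)]).length = 0 := by simp; omega
          rw [e3]
          simp
      have := sim_fold hx I.gs _ _ hsim (by rw [hy']; exact hI.wires)
      rw [← e] at this
      rw [this.2.2.1 I.out (by rw [length_qwires, hy']; exact hI.out)]

end Pool.Agent.Lib.LocMCSP
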