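import Mathlib

/-!
# Sets of isolated points with local witnesses are small

A weak form of the satisfiability coding lemma, for adaptively probed constraints.
-/

namespace Pool.Agent.Lib.LocMCSP

open Finset

variable {V : Type*} [Fintype V] [DecidableEq V]

/-- The positions which are forced: good, late, and the rest of the witness is early. -/
def forced {K : ℕ} [NeZero K] (P : (V → Bool) → V → Finset V) (D : (V → Bool) → Finset V)
    (g : V → Fin K) (x : V → Bool) : Finset V :=
  (D x).filter fun v => g v = 0 ∧ ∀ u ∈ P x v, u ≠ v → g u ≠ 0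

/-- flipping the bits of a set -/
def flipAt (x : V → Bool) (E : Finset V) : V → Bool := fun v => if v ∈ E then !(x v) else x v

/-- the witnesses in the good directions `D x`: a point which agrees with `x` on `P x v` except at
`v` is not in `A` -/
def Wit (A : Finset (V → Bool)) (P : (V → Bool) → V → Finset V) (D : (V → Bool) → Finset V) : Prop :=
  ∀ x ∈ A, ∀ v ∈ D x, ∀ y ∈ A, (∀ u ∈ P x v, u ≠ v → y u = x u) → y v = x v

theorem sum_forced_le {K : ℕ} [NeZero K] {A : Finset (V → Bool)} {P : (V → Bool) → V → Finset V}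
    {D : (V → Bool) → Finset V} (hA : Wit A P D) (g : V → Fin K) :
    ∑ x ∈ A, 2 ^ (forced P D g x).card ≤ 2 ^ Fintype.card V := by
  classical
  have h1 : ∑ x ∈ A, 2 ^ (forced P D g x).card = (A.sigma fun x => (forced P D g x).powerset).card := by
    rw [card_sigma]
    exact sum_congr rfl fun x _ => (card_powerset _).symm
  have h2 : (A.sigma fun x => (forced P D g x).powerset).card ≤ (univ : Finset (V → Bool)).card := by
    refine card_le_card_of_injOn (fun p => flipAt p.1 p.2) (fun _ _ => mem_coe.2 (mem_univ _)) ?_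
    rintro ⟨x, E⟩ hx ⟨y, F⟩ hy hxy
    simp only [coe_sigma, Set.mem_sigma_iff, mem_coe, mem_powerset] at hx hy
    obtain ⟨hxA, hE⟩ := hx
    obtain ⟨hyA, hF⟩ := hy
    replace hxy : flipAt x E = flipAt y F := hxy
    -- the early bits agree
    have early : ∀ u, g u ≠ 0 → x u = y u := by
      intro u hu
      have e1 : u ∉ E := fun h => hu (mem_filter.1 (hE h)).2.1
      have e2 : u ∉ F := fun h => hu (mem_filter.1 (hF h)).2.1
      have := congrFun hxy u
      simpa [flipAt, e1, e2] using this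
    -- the forced bits agree
    have f1 : ∀ v ∈ forced P D g x, y v = x v := by
      intro v hv
      obtain ⟨h0, h1, h2⟩ := mem_filter.1 hv
      exact hA x hxA v h0 y hyA fun u hu hne => (early u (h2 u hu hne)).symm
    have f2 : ∀ v ∈ forced P D g y, x v = y v := by
      intro v hv
      obtain ⟨h0, h1, h2⟩ := mem_filter.1 hv
      exact hA y hyA v h0 x hxA fun u hu hne => early u (h2 u hu hne)
    have exy : x = y := by
      funext v
      by_cases h1 : v ∈ E
      · exact (f1 v (hE h1)).symm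
      by_cases h2 : v ∈ F
      · exact f2 v (hF h2)
      · have := congrFun hxy v
        simpa [flipAt, h1, h2] using this
    subst exy
    have eEF : E = F := by
      ext v
      have := congrFun hxy v
      simp only [flipAt] at this
      by_cases h1 : v ∈ E <;> by_cases h2 : v ∈ F <;> simp [h1, h2] at this ⊢
    subst eEF
    rfl
  rw [h1]
  refine h2.trans ?_
  rw [card_univ, Fintype.card_fun, Fintype.card_bool]

/-- the number of colourings in which a given position is forced -/
theorem card_forced {k : ℕ} (hk : 1 ≤ k) [NeZero (2 * k)] {Q : Finset V} {v : V} (hv : v ∈ Q)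
    (hQ : Q.card ≤ k) :
    (2 * k) ^ Fintype.card V ≤ 4 * k *
      ((univ : Finset (V → Fin (2 * k))).filter fun g => g v = 0 ∧ ∀ u ∈ Q, u ≠ v → g u ≠ 0).card := by
  classical
  -- the filter is a product
  have h1 : ((univ : Finset (V → Fin (2 * k))).filter fun g => g v = 0 ∧ ∀ u ∈ Q, u ≠ v → g u ≠ 0) =
      Fintype.piFinset fun u => if u = v then {0} else if u ∈ Q then univ.erase 0 else univ := by
    ext g
    rw [mem_filter, Fintype.mem_piFinset]
    constructor
    · rintro ⟨-, h1, h2⟩ u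
      by_cases e1 : u = v
      · rw [if_pos e1, mem_singleton, e1, h1]
      · rw [if_neg e1]
        by_cases e2 : u ∈ Q
        · rw [if_pos e2, mem_erase]
          exact ⟨h2 u e2 e1, mem_univ _⟩
        · rw [if_neg e2]
          exact mem_univ _
    · intro h
      refine ⟨mem_univ _, ?_, fun u hu hne => ?_⟩
      · have := h v
        rwa [if_pos rfl, mem_singleton] at this
      · have := h u
        rw [if_neg hne, if_pos hu, mem_erase] at this
        exact this.1
  rw [h1, Fintype.card_piFinset]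
  have h2 : ∏ u : V, (if u = v then ({0} : Finset (Fin (2 * k))) else if u ∈ Q then univ.erase 0 else univ).card
      = (2 * k - 1) ^ (Q.card - 1) * (2 * k) ^ (Fintype.card V - Q.card) := by
    have e : ∀ u : V, (if u = v then ({0} : Finset (Fin (2 * k))) else if u ∈ Q then univ.erase 0
        else univ).card = if u = v then 1 else if u ∈ Q then 2 * k - 1 else 2 * k := by
      intro u
      split_ifs
      · rfl
      · rw [card_erase_of_mem (mem_univ _), card_univ, Fintype.card_fin]
      · rw [card_univ, Fintype.card_fin]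
    rw [prod_congr rfl fun u _ => e u, ← prod_mul_prod_compl Q]
    congr 1
    · rw [← mul_prod_erase Q _ hv, if_pos rfl, one_mul]
      have : ∀ u ∈ Q.erase v, (if u = v then 1 else if u ∈ Q then 2 * k - 1 else 2 * k) = 2 * k - 1 := by
        intro u hu
        rw [if_neg (ne_of_mem_erase hu), if_pos (mem_of_mem_erase hu)]
      rw [prod_congr rfl this, prod_const, card_erase_of_mem hv]
    · have : ∀ u ∈ Qᶜ, (if u = v then 1 else if u ∈ Q then 2 * k - 1 else 2 * k) = 2 * k := by
        intro u hu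
        rw [mem_compl] at hu
        rw [if_neg (by rintro rfl; exact hu hv), if_neg hu]
      rw [prod_congr rfl this, prod_const, card_compl]
  rw [h2]
  have hq : 1 ≤ Q.card := card_pos.2 ⟨v, hv⟩
  have hle : Q.card ≤ Fintype.card V := card_le_univ Q
  obtain ⟨q, hq'⟩ : ∃ q, Q.card = q + 1 := ⟨Q.card - 1, by omega⟩
  obtain ⟨r, hr⟩ : ∃ r, Fintype.card V = q + 1 + r := ⟨Fintype.card V - (q + 1), by omega⟩
  obtain ⟨a, rfl⟩ : ∃ a, k = a + 1 := ⟨k - 1, by omega⟩
  rw [hr, hq', Nat.add_sub_cancel, Nat.add_sub_cancel_left, show 2 * (a + 1) - 1 = 2 * a + 1 by omega]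
  -- Bernoulli
  have hB : (2 * (a + 1)) ^ q ≤ 2 * (2 * a + 1) ^ q := by
    have hqa : q ≤ a := by omega
    -- (1 - 1 / (2 a + 2)) ^ q ≥ 1 - q / (2 a + 2) ≥ 1 / 2
    have h := one_add_mul_le_pow (a := -(1 / (2 * ((a : ℝ) + 1)))) (by
      have : 1 / (2 * ((a : ℝ) + 1)) ≤ 2 := by
        rw [div_le_iff₀ (by positivity)]
        have : (0 : ℝ) ≤ a := Nat.cast_nonneg a
        linarith
      linarith) q
    have h3 : (1 : ℝ) / 2 ≤ 1 + q * -(1 / (2 * ((a : ℝ) + 1))) := by
      have : (q : ℝ) * (1 / (2 * ((a : ℝ) + 1))) ≤ 1 / 2 := by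
        rw [mul_one_div, div_le_div_iff₀ (by positivity) (by norm_num)]
        have : (q : ℝ) ≤ a := by exact_mod_cast hqa
        linarith
      linarith
    have h4 : (1 : ℝ) / 2 ≤ (1 + -(1 / (2 * ((a : ℝ) + 1)))) ^ q := h3.trans h
    have h5 : (1 + -(1 / (2 * ((a : ℝ) + 1)))) = (2 * a + 1) / (2 * (a + 1)) := by
      field_simp
      ring
    rw [h5, div_pow, div_le_div_iff₀ (by norm_num) (by positivity)] at h4
    have h6 : ((2 * ((a : ℝ) + 1)) ^ q) ≤ 2 * (2 * a + 1) ^ q := by linarith
    exact_mod_cast h6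
  calc (2 * (a + 1)) ^ (q + 1 + r) = (2 * (a + 1)) * (2 * (a + 1)) ^ r * (2 * (a + 1)) ^ q := by ring
    _ ≤ (2 * (a + 1)) * (2 * (a + 1)) ^ r * (2 * (2 * a + 1) ^ q) := Nat.mul_le_mul_left _ hB
    _ = 4 * (a + 1) * ((2 * a + 1) ^ q * (2 * (a + 1)) ^ r) := by ring

/-- Jensen's inequality for powers of two -/
theorem jensen {ι : Type*} (s : Finset ι) (hs : s.Nonempty) (f : ι → ℕ) (c : ℝ)
    (h : c * s.card ≤ ∑ i ∈ s, (f i : ℝ)) :
    (s.card : ℝ) * (2 : ℝ) ^ c ≤ ∑ i ∈ s, (2 : ℝ) ^ (f i) := by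
  have hc : (0 : ℝ) < s.card := by exact_mod_cast card_pos.2 hs
  have hconv := convexOn_exp.map_sum_le (t := s) (w := fun _ => 1 / (s.card : ℝ))
    (p := fun i => Real.log 2 * f i) (fun i _ => by positivity) (by
      rw [sum_const, nsmul_eq_mul]
      field_simp) (fun i _ => Set.mem_univ _)
  simp only [smul_eq_mul] at hconv
  rw [← mul_sum, ← mul_sum, ← mul_sum] at hconv
  have e1 : ∀ i, Real.exp (Real.log 2 * f i) = (2 : ℝ) ^ (f i) := by
    intro i
    rw [Real.exp_mul, Real.exp_log (by norm_num), Real.rpow_natCast]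
  rw [sum_congr rfl fun i _ => e1 i] at hconv
  have e2 : (2 : ℝ) ^ c ≤ Real.exp (1 / (s.card : ℝ) * (Real.log 2 * ∑ i ∈ s, (f i : ℝ))) := by
    rw [Real.rpow_def_of_pos (by norm_num), Real.exp_le_exp]
    have hl : 0 < Real.log 2 := Real.log_pos (by norm_num)
    rw [one_div, ← div_eq_inv_mul, le_div_iff₀ hc]
    nlinarith
  have e3 := e2.trans hconv
  rw [one_div, ← div_eq_inv_mul, le_div_iff₀ hc] at e3
  linarith

/-- **Isolated points with local witnesses.** The points of `Y` are distributed over the pieces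
`a ∈ 𝒥`; in each piece there are local witnesses in the good directions. -/
theorem card_isolated {k : ℕ} (hk : 1 ≤ k) {α : Type*} [DecidableEq α] {Y : Finset (V → Bool)}
    (hY : Y.Nonempty) (𝒥 : Finset α) (a : (V → Bool) → α) (ha : ∀ x ∈ Y, a x ∈ 𝒥)
    {P : (V → Bool) → V → Finset V} {D : (V → Bool) → Finset V}
    (hA : ∀ b ∈ 𝒥, Wit (Y.filter fun x => a x = b) P D)
    (hmem : ∀ x ∈ Y, ∀ v ∈ D x, v ∈ P x v) (hcard : ∀ x ∈ Y, ∀ v ∈ D x, (P x v).card ≤ k) :
    (Y.card : ℝ) * (2 : ℝ) ^ ((∑ x ∈ Y, ((D x).card : ℝ)) / (4 * k * Y.card)) ≤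
      𝒥.card * 2 ^ Fintype.card V := by
  classical
  have : NeZero (2 * k) := ⟨by omega⟩
  set G : Finset (V → Fin (2 * k)) := univ with hG
  have hGne : G.Nonempty := ⟨fun _ => 0, mem_univ _⟩
  have hGc : G.card = (2 * k) ^ Fintype.card V := by
    rw [hG, card_univ, Fintype.card_fun, Fintype.card_fin]
  have hGpos : (0 : ℝ) < G.card := by exact_mod_cast card_pos.2 hGne
  have hYpos : (0 : ℝ) < Y.card := by exact_mod_cast card_pos.2 hY
  have hk' : (0 : ℝ) < 4 * k := by positivity
  -- for each point, the average number of forced positions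
  have avg : ∀ x ∈ Y, ((D x).card : ℝ) * G.card ≤ 4 * k * ∑ g ∈ G, ((forced P D g x).card : ℝ) := by
    intro x hx
    have h1 : ∑ g ∈ G, (forced P D g x).card =
        ∑ v ∈ D x, (G.filter fun g => g v = 0 ∧ ∀ u ∈ P x v, u ≠ v → g u ≠ 0).card := by
      simp only [forced, card_filter]
      exact sum_comm
    have h2 : ∀ v ∈ D x, (G.card : ℝ) ≤ 4 * k *
        ((G.filter fun g => g v = 0 ∧ ∀ u ∈ P x v, u ≠ v → g u ≠ 0).card : ℝ) := by
      intro v hv
      have := card_forced hk (hmem x hx v hv) (hcard x hx v hv)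
      rw [← hGc] at this
      exact_mod_cast this
    have h4 : ∑ g ∈ G, ((forced P D g x).card : ℝ) =
        ∑ v ∈ D x, ((G.filter fun g => g v = 0 ∧ ∀ u ∈ P x v, u ≠ v → g u ≠ 0).card : ℝ) := by
      exact_mod_cast h1
    rw [h4, mul_sum]
    have h5 := sum_le_sum h2
    rwa [sum_const, nsmul_eq_mul] at h5
  -- Jensen on all pairs
  have hj := jensen (Y ×ˢ G) (hY.product hGne) (fun p => (forced P D p.2 p.1).card)
    ((∑ x ∈ Y, ((D x).card : ℝ)) / (4 * k * Y.card)) (by
      rw [card_product, sum_product]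
      push_cast
      have h6 : (∑ x ∈ Y, ((D x).card : ℝ)) * G.card ≤
          4 * k * ∑ x ∈ Y, ∑ g ∈ G, ((forced P D g x).card : ℝ) := by
        rw [sum_mul, mul_sum]
        exact sum_le_sum avg
      rw [div_mul_eq_mul_div, div_le_iff₀ (by positivity)]
      nlinarith)
  rw [card_product, sum_product] at hj
  push_cast at hj
  -- the upper bound
  have hup : ∑ x ∈ Y, ∑ g ∈ G, (2 : ℝ) ^ (forced P D g x).card ≤
      𝒥.card * (G.card * 2 ^ Fintype.card V) := by
    have e1 : ∑ x ∈ Y, ∑ g ∈ G, (2 : ℝ) ^ (forced P D g x).card =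
        ∑ b ∈ 𝒥, ∑ x ∈ Y.filter (fun x => a x = b), ∑ g ∈ G, (2 : ℝ) ^ (forced P D g x).card :=
      (sum_fiberwise_of_maps_to ha _).symm
    rw [e1]
    have e2 : ∀ b ∈ 𝒥, ∑ x ∈ Y.filter (fun x => a x = b), ∑ g ∈ G, (2 : ℝ) ^ (forced P D g x).card ≤
        G.card * 2 ^ Fintype.card V := by
      intro b hb
      rw [sum_comm]
      have e3 : ∀ g ∈ G, ∑ x ∈ Y.filter (fun x => a x = b), (2 : ℝ) ^ (forced P D g x).card ≤
          (2 : ℝ) ^ Fintype.card V := by
        intro g _
        have := sum_forced_le (hA b hb) g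
        exact_mod_cast this
      have := sum_le_sum e3
      rwa [sum_const, nsmul_eq_mul] at this
    have := sum_le_sum e2
    rwa [sum_const, nsmul_eq_mul] at this
  have hfin := hj.trans hup
  have h7 : (G.card : ℝ) * ((Y.card : ℝ) *
      (2 : ℝ) ^ ((∑ x ∈ Y, ((D x).card : ℝ)) / (4 * k * Y.card))) ≤
      G.card * (𝒥.card * 2 ^ Fintype.card V) := by linarith
  exact le_of_mul_le_mul_left h7 hGpos

end Pool.Agent.Lib.LocMCSP
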