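import Pool.Agent.Lib.MP_a221bc_loc.Count
import Pool.Agent.Lib.MP_a221bc_loc.Isolated

/-!
# Local reductions from parity to MCSP are large
-/

namespace Pool.Agent.Lib.LocMCSP

open Pool.Agent.Lib.EsopHard Pool.Agent.Lib.MultiMCSP Finset

/-! ## Probed positions -/

/-- the positions probed by a query circuit -/
def probed (x : List Bool) : List QGate → List Bool → List ℕ
  | [], _ => []
  | .gate g :: gs, w => probed x gs (w ++ [g.val w])
  | .query a :: gs, w => num (a.map fun i => w.getD i false) ::
      probed x gs (w ++ [(QGate.query a).val x w])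

theorem length_probed (x : List Bool) : ∀ (gs : List QGate) (w : List Bool),
    (probed x gs w).length = gs.countP QGate.isQuery
  | [], _ => rfl
  | .gate g :: gs, w => by
    rw [probed, length_probed x gs, List.countP_cons]
    simp [QGate.isQuery]
  | .query a :: gs, w => by
    rw [probed, List.length_cons, length_probed x gs, List.countP_cons]
    simp [QGate.isQuery]

theorem qwires_congr {x x' : List Bool} : ∀ (gs : List QGate) (w : List Bool),
    (∀ j ∈ probed x gs w, x'.getD j false = x.getD j false) → qwires x' gs w = qwires x gs w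
  | [], _, _ => rfl
  | .gate g :: gs, w, h => by
    have e1 : qwires x' (.gate g :: gs) w = qwires x' gs (w ++ [g.val w]) := rfl
    have e2 : qwires x (.gate g :: gs) w = qwires x gs (w ++ [g.val w]) := rfl
    rw [e1, e2]
    exact qwires_congr gs _ h
  | .query a :: gs, w, h => by
    have e1 : qwires x' (.query a :: gs) w = qwires x' gs (w ++ [(QGate.query a).val x' w]) := rfl
    have e2 : qwires x (.query a :: gs) w = qwires x gs (w ++ [(QGate.query a).val x w]) := rfl
    have e3 : (QGate.query a).val x' w = (QGate.query a).val x w := h _ (List.mem_cons_self ..)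
    rw [e1, e2, e3]
    exact qwires_congr gs _ fun j hj => h j (List.mem_cons_of_mem _ hj)

/-- the positions probed by the tree when all the answers are zero -/
def zpath : Tree → List ℕ
  | .leaf _ => []
  | .node j t₀ _ => j :: zpath t₀

theorem length_zpath : ∀ t : Tree, (zpath t).length ≤ t.depth
  | .leaf _ => le_rfl
  | .node j t₀ t₁ => by
    have := length_zpath t₀
    rw [zpath, List.length_cons, Tree.depth]
    have := le_max_left t₀.depth t₁.depth
    omega

/-- the leaf of the zero path -/
def zleaf : Tree → List Inst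
  | .leaf l => l
  | .node _ t₀ _ => zleaf t₀

theorem eval_zero : ∀ (t : Tree) (x : List Bool), (∀ j ∈ zpath t, x.getD j false = false) →
    t.eval x = zleaf t
  | .leaf _, _, _ => rfl
  | .node j t₀ t₁, x, h => by
    rw [Tree.eval, if_neg (by rw [h j (List.mem_cons_self ..)]; decide)]
    exact eval_zero t₀ x fun i hi => h i (List.mem_cons_of_mem _ hi)

theorem zleaf_ok {J R S k : ℕ} : ∀ t : Tree, t.Ok J R S k → (zleaf t).length ≤ J ∧ ∀ I ∈ zleaf t, I.Ok R S k
  | .leaf _, h => h
  | .node _ t₀ _, h => zleaf_ok t₀ h.1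

/-! ## The free variables -/

/-- the positions which are not probed on the zero path -/
abbrev Free (n : ℕ) (Q : List ℕ) : Type := {j : Fin n // (j : ℕ) ∉ Q}

/-- the input with the given free bits, zero elsewhere -/
def inp (n : ℕ) (Q : List ℕ) (y : Free n Q → Bool) : List Bool :=
  List.ofFn fun j : Fin n => if h : (j : ℕ) ∉ Q then y ⟨j, h⟩ else false

theorem length_inp (n : ℕ) (Q : List ℕ) (y : Free n Q → Bool) : (inp n Q y).length = n := by
  simp [inp]

theorem inp_free {n : ℕ} {Q : List ℕ} (y : Free n Q → Bool) (v : Free n Q) :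
    (inp n Q y).getD (v.1 : ℕ) false = y v := by
  rw [List.getD_eq_getElem _ _ (by rw [length_inp]; exact v.1.2)]
  simp only [inp, List.getElem_ofFn]
  rw [dif_pos v.2]

theorem inp_other {n : ℕ} {Q : List ℕ} (y : Free n Q → Bool) {j : ℕ} (h : ∀ v : Free n Q, (v.1 : ℕ) ≠ j) :
    (inp n Q y).getD j false = false := by
  rcases Nat.lt_or_ge j n with hj | hj
  · rw [List.getD_eq_getElem _ _ (by rw [length_inp]; exact hj)]
    simp only [inp, List.getElem_ofFn]
    rw [dif_neg]
    intro hq
    exact h ⟨⟨j, hj⟩, hq⟩ rfl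
  · exact List.getD_eq_default _ _ (by rw [length_inp]; exact hj)

theorem card_free (n : ℕ) (Q : List ℕ) : n ≤ Fintype.card (Free n Q) + Q.length := by
  classical
  have h1 : Fintype.card (Free n Q) = (univ.filter fun j : Fin n => (j : ℕ) ∉ Q).card :=
    Fintype.card_subtype _
  have h2 := card_filter_add_card_filter_not (s := (univ : Finset (Fin n))) (fun j : Fin n => (j : ℕ) ∉ Q)
  have h3 : (univ.filter fun j : Fin n => ¬ (j : ℕ) ∉ Q).card ≤ Q.length := by
    refine (card_le_card_of_injOn (fun j : Fin n => (j : ℕ)) (t := Q.toFinset) ?_ ?_).trans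
      (List.toFinset_card_le Q)
    · intro j hj
      have := (mem_filter.1 (mem_coe.1 hj)).2
      rw [not_not] at this
      exact mem_coe.2 (List.mem_toFinset.2 this)
    · intro a _ b _ h
      exact Fin.ext h
  rw [card_univ, Fintype.card_fin] at h2
  omega

/-- the number of ones -/
theorem count_inp {n : ℕ} {Q : List ℕ} (y : Free n Q → Bool) :
    (inp n Q y).count true = (univ.filter fun v => y v = true).card := by
  classical
  have h0 : ∀ {m : ℕ} (f : Fin m → Bool), (List.ofFn f).count true = ∑ j, if f j = true then 1 else 0 := by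
    intro m f
    induction m with
    | zero => simp
    | succ m ih =>
      rw [List.ofFn_succ, List.count_cons, ih, Fin.sum_univ_succ, add_comm]
      congr 1
      cases f 0 <;> rfl
  have h1 : ∀ {m : ℕ} (f : Fin m → Bool), (List.ofFn f).count true = (univ.filter fun j => f j = true).card := by
    intro m f
    rw [h0, card_filter]
  rw [inp, h1]
  symm
  refine card_bij (fun v _ => v.1) ?_ ?_ ?_
  · intro v hv
    rw [mem_filter] at hv ⊢
    refine ⟨mem_univ _, ?_⟩
    rw [dif_pos v.2]
    exact hv.2
  · intro a _ b _ h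
    exact Subtype.ext h
  · intro j hj
    obtain ⟨-, hj⟩ := mem_filter.1 hj
    by_cases h : (j : ℕ) ∉ Q
    · rw [dif_pos h] at hj
      exact ⟨⟨j, h⟩, mem_filter.2 ⟨mem_univ _, hj⟩, rfl⟩
    · rw [dif_neg h] at hj
      simp at hj

/-- parity of the free bits -/
abbrev odd {V : Type*} [Fintype V] (y : V → Bool) : Prop := (univ.filter fun v => y v = true).card % 2 = 1

theorem odd_flip {V : Type*} [Fintype V] [DecidableEq V] {y z : V → Bool} {v : V} (h : z v ≠ y v)
    (h' : ∀ u, u ≠ v → z u = y u) : odd z ↔ ¬ odd y := by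
  classical
  have key : ∀ a b : V → Bool, a v = true → b v = false → (∀ u, u ≠ v → a u = b u) →
      (univ.filter fun v => a v = true).card = (univ.filter fun v => b v = true).card + 1 := by
    intro a b ha hb hab
    have : (univ.filter fun v => a v = true) = insert v (univ.filter fun v => b v = true) := by
      ext u
      rw [mem_filter, mem_insert, mem_filter]
      by_cases hu : u = v
      · subst hu
        simp [ha]
      · simp [hu, hab u hu]
    rw [this, card_insert_of_notMem]
    rw [mem_filter]
    simp [hb]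
  unfold odd
  cases hy : y v with
  | false =>
    have hz : z v = true := by
      rw [hy] at h
      simpa using h
    have := key z y hz hy h'
    omega
  | true =>
    have hz : z v = false := by
      rw [hy] at h
      simpa using h
    have := key y z hy hz fun u hu => (h' u hu).symm
    omega

/-- half of the points are odd -/
theorem card_odd {V : Type*} [Fintype V] [DecidableEq V] (v : V) :
    2 * ((univ : Finset (V → Bool)).filter fun y => odd y).card = 2 ^ Fintype.card V := by
  classical
  have h1 : ((univ : Finset (V → Bool)).filter fun y => ¬ odd y).card =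
      ((univ : Finset (V → Bool)).filter fun y => odd y).card := by
    have hinj : Function.Injective fun y : V → Bool => Function.update y v (!(y v)) := by
      intro y z h
      replace h : Function.update y v (!(y v)) = Function.update z v (!(z v)) := h
      funext u
      have := congrFun h u
      by_cases hu : u = v
      · subst hu
        rw [Function.update_self, Function.update_self] at this
        exact Bool.not_inj this
      · rwa [Function.update_of_ne hu, Function.update_of_ne hu] at this
    have hfl : ∀ y : V → Bool, odd (Function.update y v (!(y v))) ↔ ¬ odd y := by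
      intro y
      refine odd_flip (y := y) (v := v) ?_ fun u hu => Function.update_of_ne hu _ _
      rw [Function.update_self]
      cases y v <;> simp
    apply le_antisymm
    · refine card_le_card_of_injOn (fun y => Function.update y v (!(y v))) ?_ hinj.injOn
      intro y hy
      have hy' := (mem_filter.1 (mem_coe.1 hy)).2
      exact mem_coe.2 (mem_filter.2 ⟨mem_univ _, (hfl y).2 hy'⟩)
    · refine card_le_card_of_injOn (fun y => Function.update y v (!(y v))) ?_ hinj.injOn
      intro y hy
      have hy' := (mem_filter.1 (mem_coe.1 hy)).2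
      exact mem_coe.2 (mem_filter.2 ⟨mem_univ _, fun h => (hfl y).1 h hy'⟩)
  have h2 := card_filter_add_card_filter_not (s := (univ : Finset (V → Bool))) (fun y => odd y)
  rw [card_univ, Fintype.card_fun, Fintype.card_bool] at h2
  omega

/-- the point with one bit flipped -/
abbrev flip {V : Type*} [DecidableEq V] (y : V → Bool) (v : V) : V → Bool := Function.update y v (!(y v))

theorem flip_self {V : Type*} [DecidableEq V] (y : V → Bool) (v : V) : flip y v v = !(y v) :=
  Function.update_self ..

theorem flip_ne {V : Type*} [DecidableEq V] (y : V → Bool) {u v : V} (h : u ≠ v) : flip y v u = y u :=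
  Function.update_of_ne h ..

theorem flip_flip {V : Type*} [DecidableEq V] (y : V → Bool) (v : V) : flip (flip y v) v = y := by
  unfold flip
  rw [Function.update_self, Bool.not_not, Function.update_idem, Function.update_eq_self]

theorem odd_flip' {V : Type*} [Fintype V] [DecidableEq V] (y : V → Bool) (v : V) :
    odd (flip y v) ↔ ¬ odd y := by
  refine odd_flip (y := y) (v := v) ?_ fun u hu => Function.update_of_ne hu _ _
  show Function.update y v (!(y v)) v ≠ y v
  rw [Function.update_self]
  cases y v <;> simp

/-! ## The inequality -/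

instance : Inhabited Inst := ⟨⟨0, 0, [], 0⟩⟩

/-- **The inequality for one tree**, on the subcube of the positions which are not in `Q`. -/
theorem core {n J R S k : ℕ} (hk : 1 ≤ k) (t : Tree) (ht : t.Ok J R S k) (Q : List ℕ)
    (hQ : ∀ j ∈ zpath t, j < n → j ∈ Q) (hm : 0 < Fintype.card (Free n Q))
    (h0 : CorrectOn t (inp n Q fun _ => false)) (W : Finset (Free n Q → Bool))
    (hW : ∀ y, y ∉ W → CorrectOn t (inp n Q y)) (hW2 : 2 * W.card < 2 ^ Fintype.card (Free n Q)) :
    (1 - 2 * (W.card : ℝ) / 2 ^ Fintype.card (Free n Q)) *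
      (2 : ℝ) ^ ((1 - 2 * (W.card : ℝ) / 2 ^ Fintype.card (Free n Q)) *
        Fintype.card (Free n Q) / (4 * k)) ≤
      2 * ((J * (2 * (R + S + 1)) ^ (2 * S + 3) : ℕ) : ℝ) := by
  classical
  obtain ⟨hJ, hI⟩ := zleaf_ok t ht
  set m := Fintype.card (Free n Q) with hmdef
  obtain ⟨v₀⟩ : Nonempty (Free n Q) := Fintype.card_pos_iff.1 hm
  -- the leaf
  have hleaf : ∀ y : Free n Q → Bool, t.eval (inp n Q y) = zleaf t := by
    intro y
    refine eval_zero t _ fun j hj => ?_
    rcases Nat.lt_or_ge j n with hjn | hjn
    · refine inp_other y ?_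
      intro v hv
      exact v.2 (by rw [hv]; exact hQ j hj hjn)
    · exact List.getD_eq_default _ _ (by rw [length_inp]; exact hjn)
  have hcor : ∀ y : Free n Q → Bool, CorrectOn t (inp n Q y) →
      (odd y ↔ ∃ I ∈ zleaf t, HasCircuit I.r (I.table (inp n Q y)) I.s) := by
    intro y h
    unfold CorrectOn at h
    rw [hleaf y, count_inp] at h
    exact h
  -- the sizes are small
  have hsmall : ∀ I ∈ zleaf t, 1 ≤ I.r → I.s ≤ S + 1 := by
    intro I hIm hr
    by_contra hcon
    have h1 : ¬ odd (fun _ : Free n Q => false) := by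
      unfold odd
      simp
    rw [hcor _ h0] at h1
    apply h1
    refine ⟨I, hIm, (hasCircuit_table (hI I hIm) hr ?_).mono (by omega)⟩
    intro j
    by_cases h : ∃ v : Free n Q, (v.1 : ℕ) = j
    · obtain ⟨v, rfl⟩ := h
      exact inp_free _ v
    · exact inp_other _ fun v hv => h ⟨v, hv⟩
  -- the good odd points
  set Y : Finset (Free n Q → Bool) := univ.filter fun y => odd y ∧ y ∉ W with hYdef
  have hacc : ∀ y ∈ Y, ∃ I ∈ zleaf t, HasCircuit I.r (I.table (inp n Q y)) I.s := by
    intro y hy
    obtain ⟨-, h1, h2⟩ := mem_filter.1 hy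
    exact (hcor y (hW y h2)).1 h1
  choose! inst hinst hcirc using hacc
  let a : (Free n Q → Bool) → Inst × List Bool := fun y => (inst y, (inst y).table (inp n Q y))
  let 𝒥 : Finset (Inst × List Bool) := ((zleaf t).toFinset.filter fun I => 1 ≤ I.r).biUnion fun I =>
    (tabsOf I.r I.s).image fun T => (I, T)
  have ha : ∀ y ∈ Y, a y ∈ 𝒥 := by
    intro y hy
    have hr : 1 ≤ (inst y).r := by
      rcases Nat.eq_zero_or_pos (inst y).r with h1 | h1
      · have h2 := hcirc y hy
        rw [h1] at h2
        exact absurd h2 (not_hasCircuit_zero _ _)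
      · exact h1
    exact mem_biUnion.2 ⟨inst y, mem_filter.2 ⟨List.mem_toFinset.2 (hinst y hy), hr⟩,
      mem_image.2 ⟨_, mem_tabsOf (hcirc y hy), rfl⟩⟩
  have h𝒥 : 𝒥.card ≤ J * (2 * (R + S + 1)) ^ (2 * S + 3) := by
    refine card_biUnion_le.trans ?_
    have h1 : ∀ I ∈ (zleaf t).toFinset.filter (fun I => 1 ≤ I.r),
        ((tabsOf I.r I.s).image fun T => (I, T)).card ≤ (2 * (R + S + 1)) ^ (2 * S + 3) := by
      intro I hI'
      obtain ⟨hI1, hI2⟩ := mem_filter.1 hI'
      have hs := hsmall I (List.mem_toFinset.1 hI1) hI2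
      have hr := (hI I (List.mem_toFinset.1 hI1)).vars
      refine card_image_le.trans ((card_tabsOf _ _).trans ?_)
      refine (Nat.pow_le_pow_left (show 2 * (I.r + I.s) ≤ 2 * (R + S + 1) by omega) _).trans ?_
      exact Nat.pow_le_pow_right (by omega) (by omega)
    refine (sum_le_sum h1).trans ?_
    rw [sum_const, smul_eq_mul]
    refine Nat.mul_le_mul_right _ ?_
    exact (card_filter_le _ _).trans ((List.toFinset_card_le _).trans hJ)
  -- the good directions
  let D : (Free n Q → Bool) → Finset (Free n Q) := fun y => univ.filter fun v => flip y v ∉ W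
  have hdiff : ∀ y ∈ Y, ∀ v ∈ D y, ∃ i ∈ points (inst y).r,
      (qwires (inp n Q (flip y v)) (inst y).gs i).getD (inst y).out false ≠
        (qwires (inp n Q y) (inst y).gs i).getD (inst y).out false := by
    intro y hy v hv
    by_contra hcon
    push Not at hcon
    have h1 : (inst y).table (inp n Q (flip y v)) = (inst y).table (inp n Q y) :=
      List.map_inj_left.2 hcon
    have h3 : odd (flip y v) := (hcor _ (hW _ (mem_filter.1 hv).2)).2
      ⟨inst y, hinst y hy, by rw [h1]; exact hcirc y hy⟩
    rw [odd_flip'] at h3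
    exact h3 (mem_filter.1 hy).2.1
  choose! pt hpt hne using hdiff
  let P : (Free n Q → Bool) → Free n Q → Finset (Free n Q) := fun y v =>
    univ.filter fun u => (u.1 : ℕ) ∈ probed (inp n Q (flip y v)) (inst y).gs (pt y v)
  have hagree : ∀ (y z : Free n Q → Bool) (v : Free n Q),
      (∀ u ∈ P y v, z u = flip y v u) →
      qwires (inp n Q z) (inst y).gs (pt y v) = qwires (inp n Q (flip y v)) (inst y).gs (pt y v) := by
    intro y z v h
    refine qwires_congr _ _ fun j hj => ?_
    by_cases hex : ∃ u : Free n Q, (u.1 : ℕ) = j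
    · obtain ⟨u, rfl⟩ := hex
      rw [inp_free, inp_free]
      exact h u (mem_filter.2 ⟨mem_univ _, hj⟩)
    · rw [inp_other _ fun u hu => hex ⟨u, hu⟩, inp_other _ fun u hu => hex ⟨u, hu⟩]
  -- counting
  have hodd := card_odd v₀
  rw [← hmdef] at hodd
  have hYodd : Y.card ≤ ((univ : Finset (Free n Q → Bool)).filter fun y => odd y).card :=
    card_le_card fun y hy => mem_filter.2 ⟨mem_univ _, (mem_filter.1 hy).2.1⟩
  have hYlow : ((univ : Finset (Free n Q → Bool)).filter fun y => odd y).card ≤ Y.card + W.card := by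
    refine (card_le_card ?_).trans (card_union_le Y W)
    intro y hy
    by_cases h : y ∈ W
    · exact mem_union_right _ h
    · exact mem_union_left _ (mem_filter.2 ⟨mem_univ _, (mem_filter.1 hy).2, h⟩)
  have hYne : Y.Nonempty := by
    rw [← card_pos]
    omega
  have hdir : m * ((univ : Finset (Free n Q → Bool)).filter fun y => odd y).card ≤
      ∑ y ∈ Y, (D y).card + m * W.card := by
    set O := (univ : Finset (Free n Q → Bool)).filter fun y => odd y with hO
    have e1 : m * O.card = (O ×ˢ (univ : Finset (Free n Q))).card := by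
      rw [card_product, card_univ, ← hmdef, mul_comm]
    have e2 : (O ×ˢ (univ : Finset (Free n Q))) ⊆ (Y.sigma fun y => D y).image (fun p => (p.1, p.2)) ∪
        (((W.filter fun y => odd y) ×ˢ (univ : Finset (Free n Q))) ∪
        (((W.filter fun y => ¬ odd y) ×ˢ (univ : Finset (Free n Q))).image fun p => (flip p.1 p.2, p.2))) := by
      rintro ⟨y, v⟩ hyv
      have hy := (mem_filter.1 (mem_product.1 hyv).1).2
      by_cases h1 : y ∈ W
      · exact mem_union_right _ (mem_union_left _ (mem_product.2 ⟨mem_filter.2 ⟨h1, hy⟩, mem_univ _⟩))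
      · by_cases h2 : flip y v ∈ W
        · refine mem_union_right _ (mem_union_right _ (mem_image.2 ⟨(flip y v, v), ?_, ?_⟩))
          · exact mem_product.2 ⟨mem_filter.2 ⟨h2, fun h => (odd_flip' y v).1 h hy⟩, mem_univ _⟩
          · show (flip (flip y v) v, v) = (y, v)
            rw [flip_flip]
        · refine mem_union_left _ (mem_image.2 ⟨⟨y, v⟩, ?_, rfl⟩)
          exact mem_sigma.2 ⟨mem_filter.2 ⟨mem_univ _, hy, h1⟩, mem_filter.2 ⟨mem_univ _, h2⟩⟩
    have e3 := (card_le_card e2).trans ((card_union_le _ _).trans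
      (Nat.add_le_add card_image_le ((card_union_le _ _).trans (Nat.add_le_add le_rfl card_image_le))))
    rw [card_sigma, card_product, card_product, card_product, card_univ, ← hmdef] at e3
    have e6 : m * O.card = O.card * m := mul_comm _ _
    have e4 := card_filter_add_card_filter_not (s := W) (fun y => odd y)
    have e5 : (W.filter fun y => odd y).card * m + (W.filter fun y => ¬ odd y).card * m = m * W.card := by
      rw [← e4]
      ring
    omega
  have key := card_isolated hk hYne 𝒥 a ha (P := P) (D := D) ?_ ?_ ?_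
  · -- conclusion
    rw [← hmdef] at key
    have hmpos : (0 : ℝ) < m := by exact_mod_cast hm
    have h2m : (0 : ℝ) < 2 ^ m := by positivity
    have hkpos : (0 : ℝ) < 4 * k := by positivity
    have hYpos : (0 : ℝ) < Y.card := by exact_mod_cast card_pos.2 hYne
    set θ : ℝ := 1 - 2 * (W.card : ℝ) / 2 ^ m with hθ
    have hW2' : 2 * (W.card : ℝ) < 2 ^ m := by exact_mod_cast hW2
    have hθpos : 0 < θ := by
      rw [hθ, sub_pos, div_lt_one h2m]
      exact hW2'
    have hθm : θ * 2 ^ m = 2 ^ m - 2 * W.card := by
      rw [hθ]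
      field_simp
    set O : ℝ := (((univ : Finset (Free n Q → Bool)).filter fun y => odd y).card : ℝ) with hO
    have f1 : 2 * O = 2 ^ m := by
      rw [hO]
      exact_mod_cast hodd
    have f2 : (Y.card : ℝ) ≤ O := by rw [hO]; exact_mod_cast hYodd
    have f3 : O ≤ Y.card + W.card := by rw [hO]; exact_mod_cast hYlow
    have f4 : m * O ≤ ∑ y ∈ Y, ((D y).card : ℝ) + m * W.card := by rw [hO]; exact_mod_cast hdir
    have f5 : θ * 2 ^ m ≤ 2 * Y.card := by
      rw [hθm]
      linarith
    have f6 : θ * m / (4 * k) ≤ (∑ x ∈ Y, ((D x).card : ℝ)) / (4 * k * Y.card) := by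
      rw [div_le_div_iff₀ hkpos (by positivity)]
      have g1 : θ * m * Y.card ≤ ∑ x ∈ Y, ((D x).card : ℝ) := by
        have g2 : θ * m * Y.card ≤ θ * m * O := mul_le_mul_of_nonneg_left f2 (by positivity)
        have g3 : θ * m * O = m * (2 ^ m - 2 * W.card) / 2 := by
          rw [← hθm, ← f1]
          ring
        have g4 : m * (2 ^ m - 2 * (W.card : ℝ)) / 2 = m * O - m * W.card := by
          rw [← f1]
          ring
        linarith
      nlinarith
    have f7 : (2 : ℝ) ^ (θ * m / (4 * k)) ≤
        (2 : ℝ) ^ ((∑ x ∈ Y, ((D x).card : ℝ)) / (4 * k * Y.card)) :=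
      Real.rpow_le_rpow_of_exponent_le (by norm_num) f6
    have f8 : θ * 2 ^ m * (2 : ℝ) ^ (θ * m / (4 * k)) ≤
        2 * ((J * (2 * (R + S + 1)) ^ (2 * S + 3) : ℕ) : ℝ) * 2 ^ m := by
      have g1 : (𝒥.card : ℝ) ≤ ((J * (2 * (R + S + 1)) ^ (2 * S + 3) : ℕ) : ℝ) := by exact_mod_cast h𝒥
      calc θ * 2 ^ m * (2 : ℝ) ^ (θ * m / (4 * k)) ≤
            2 * Y.card * (2 : ℝ) ^ ((∑ x ∈ Y, ((D x).card : ℝ)) / (4 * k * Y.card)) :=
            mul_le_mul f5 f7 (by positivity) (by positivity)
        _ = 2 * (Y.card * (2 : ℝ) ^ ((∑ x ∈ Y, ((D x).card : ℝ)) / (4 * k * Y.card))) := by ring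
        _ ≤ 2 * (𝒥.card * 2 ^ m) := mul_le_mul_of_nonneg_left key (by norm_num)
        _ ≤ 2 * (((J * (2 * (R + S + 1)) ^ (2 * S + 3) : ℕ) : ℝ) * 2 ^ m) :=
            mul_le_mul_of_nonneg_left (mul_le_mul_of_nonneg_right g1 h2m.le) (by norm_num)
        _ = _ := by ring
    have f9 : 2 ^ m * (θ * (2 : ℝ) ^ (θ * m / (4 * k))) ≤
        2 ^ m * (2 * ((J * (2 * (R + S + 1)) ^ (2 * S + 3) : ℕ) : ℝ)) := by linarith
    exact le_of_mul_le_mul_left f9 h2m
  · -- witnesses
    intro b _ y hy v hv z hz hzy
    obtain ⟨hyY, hyb⟩ := mem_filter.1 hy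
    obtain ⟨hzY, hzb⟩ := mem_filter.1 hz
    by_contra hcon
    have h1 := hagree y z v fun u hu => by
      by_cases huv : u = v
      · subst huv
        rw [flip_self]
        exact Bool.eq_not_of_ne hcon
      · rw [flip_ne y huv]
        exact hzy u hu huv
    have h2 := hne y hyY v hv
    rw [← h1] at h2
    apply h2
    have e1 : a z = a y := by rw [hzb, hyb]
    have e2 : inst z = inst y := congrArg Prod.fst e1
    have h3 : (inst y).table (inp n Q z) = (inst y).table (inp n Q y) := by
      have := congrArg Prod.snd e1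
      simp only [a] at this
      rwa [e2] at this
    exact List.map_inj_left.1 h3 _ (hpt y hyY v hv)
  · -- the flipped position is probed
    intro y hy v hv
    by_contra hcon
    have h1 := hagree y y v fun u hu => by
      have huv : u ≠ v := by
        rintro rfl
        exact hcon hu
      rw [flip_ne y huv]
    apply hne y hy v hv
    rw [h1]
  · -- few positions are probed
    intro y hy v _
    have h1 : (P y v).card ≤ ((probed (inp n Q (flip y v)) (inst y).gs (pt y v)).toFinset).card := by
      refine card_le_card_of_injOn (fun u : Free n Q => (u.1 : ℕ)) ?_ ?_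
      · intro u hu
        exact mem_coe.2 (List.mem_toFinset.2 (mem_filter.1 (mem_coe.1 hu)).2)
      · intro a _ b _ h
        exact Subtype.ext (Fin.ext h)
    refine h1.trans ((List.toFinset_card_le _).trans ?_)
    rw [length_probed]
    exact (hI _ (hinst y hy)).queries

/-- **Local reductions from parity to MCSP are large.** -/
theorem main {n q J R S k : ℕ} (hk : 1 ≤ k) (hq : q < n) (t : Tree) (hd : t.depth ≤ q) (ht : t.Ok J R S k)
    (hred : Reduces n t) : 2 ^ (n - q) ≤ (2 * (J * (2 * (R + S + 1)) ^ (2 * S + 3))) ^ (4 * k) := by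
  classical
  have hQl : (zpath t).length ≤ q := (length_zpath t).trans hd
  set m := Fintype.card (Free n (zpath t)) with hm
  have hmn : n - q ≤ m := by
    have := card_free n (zpath t)
    omega
  have h := core hk t ht (zpath t) (fun j hj _ => hj) (by omega) (hred _ (length_inp _ _ _)) ∅
    (fun y _ => hred _ (length_inp _ _ _)) (by rw [card_empty]; positivity)
  rw [card_empty, ← hm] at h
  simp only [Nat.cast_zero, mul_zero, zero_div, sub_zero, one_mul] at h
  set Y : ℕ := J * (2 * (R + S + 1)) ^ (2 * S + 3) with hY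
  have h4 : (2 : ℝ) ^ ((m : ℝ) / (4 * k)) ≤ ((2 * Y : ℕ) : ℝ) := by
    push_cast
    exact h
  have h7 : ((2 : ℝ) ^ ((m : ℝ) / (4 * k))) ^ (4 * k) = 2 ^ m := by
    rw [← Real.rpow_natCast, ← Real.rpow_mul (by norm_num)]
    push_cast
    rw [div_mul_cancel₀ _ (by positivity), Real.rpow_natCast]
  have h8 : (2 : ℝ) ^ m ≤ ((2 * Y : ℕ) : ℝ) ^ (4 * k) := by
    rw [← h7]
    exact pow_le_pow_left₀ (by positivity) h4 _
  have h9 : 2 ^ m ≤ (2 * Y) ^ (4 * k) := by exact_mod_cast h8
  exact (Nat.pow_le_pow_right (by norm_num) hmn).trans h9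

end Pool.Agent.Lib.LocMCSP
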