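import Pool.Agent.Lib.MP_a221bc_loc.Asym

/-!
# Randomized local reductions from parity to MCSP are large
-/

namespace Pool.Agent.Lib.LocMCSP

open Pool.Agent.Lib.EsopHard Pool.Agent.Lib.MultiMCSP Finset

/-- the zero path of the tree meets the block `b` -/
def Hits (B b : ℕ) (t : Tree) : Prop := ∃ j ∈ zpath t, j % B = b

/-- the positions outside of the block `b` -/
def outside (n B b : ℕ) : List ℕ := (List.range n).filter fun j => decide (j % B ≠ b)

theorem mem_outside {n B b j : ℕ} : j ∈ outside n B b ↔ j < n ∧ j % B ≠ b := by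
  simp [outside]

theorem card_block {n B b : ℕ} (hb : b < B) :
    n / B ≤ Fintype.card (Free n (outside n B b)) := by
  have hlt : ∀ i : Fin (n / B), b + B * i < n := by
    intro i
    have h1 : B * ((i : ℕ) + 1) ≤ n := (Nat.mul_le_mul_left B i.2).trans (Nat.mul_div_le n B)
    rw [Nat.mul_add, Nat.mul_one] at h1
    omega
  have hmod : ∀ i : ℕ, (b + B * i) % B = b := by
    intro i
    rw [Nat.add_mul_mod_self_left, Nat.mod_eq_of_lt hb]
  have := Fintype.card_le_of_injective (fun i : Fin (n / B) =>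
    (⟨⟨b + B * i, hlt i⟩, by rw [mem_outside]; rintro ⟨-, h⟩; exact h (hmod i)⟩ :
      Free n (outside n B b))) ?_
  · simpa using this
  · intro i j h
    have h1 : b + B * (i : ℕ) = b + B * (j : ℕ) :=
      congrArg (fun v : Free n (outside n B b) => (v.1 : ℕ)) h
    have h2 : (i : ℕ) = j := Nat.eq_of_mul_eq_mul_left (by omega) (Nat.add_left_cancel h1)
    exact Fin.ext h2

open Classical in
/-- some block is rarely hit -/
theorem exists_block {q B : ℕ} {η : ℝ} (hB : 1 ≤ B) (hqB : (q : ℝ) ≤ η * B) {Ω : Type} [Fintype Ω]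
    (p : Ω → ℝ) (t : Ω → Tree) (hp : ∀ ω, 0 ≤ p ω) (hp1 : ∑ ω, p ω = 1)
    (hd : ∀ ω, (t ω).depth ≤ q) : ∃ b < B, ∑ ω, (if Hits B b (t ω) then p ω else 0) ≤ η := by
  have h1 : ∑ b ∈ range B, ∑ ω, (if Hits B b (t ω) then p ω else 0) ≤ ∑ _b ∈ range B, η := by
    rw [sum_comm]
    have h2 : ∀ ω, ∑ b ∈ range B, (if Hits B b (t ω) then p ω else 0) ≤ q * p ω := by
      intro ω
      rw [← sum_filter, sum_const, nsmul_eq_mul]
      refine mul_le_mul_of_nonneg_right ?_ (hp ω)
      have h3 : ((range B).filter fun b => Hits B b (t ω)) ⊆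
          (zpath (t ω)).toFinset.image fun j => j % B := by
        intro b hb
        obtain ⟨j, hj, hjb⟩ := (mem_filter.1 hb).2
        exact mem_image.2 ⟨j, List.mem_toFinset.2 hj, hjb⟩
      have h4 := (card_le_card h3).trans (card_image_le.trans ((List.toFinset_card_le _).trans
        ((length_zpath _).trans (hd ω))))
      exact_mod_cast h4
    refine (sum_le_sum fun ω _ => h2 ω).trans ?_
    rw [← mul_sum, hp1, sum_const, card_range, nsmul_eq_mul]
    linarith
  obtain ⟨b, hb, h⟩ := exists_le_of_sum_le (nonempty_range_iff.2 (by omega)) h1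
  exact ⟨b, mem_range.1 hb, h⟩

/-- **The inequality for randomized reductions.** -/
theorem rand_core {n q J R S k B : ℕ} {σ₀ σ₁ η : ℝ} (hk : 1 ≤ k) (hB : 1 ≤ B) (hη : 0 < η)
    (hσ : 2 + 2 * η < 2 * σ₀ + σ₁) (hqB : (q : ℝ) ≤ η * B) (hnB : B ≤ n) {Ω : Type} [Fintype Ω]
    (p : Ω → ℝ) (t : Ω → Tree) (hd : ∀ ω, (t ω).depth ≤ q) (ht : ∀ ω, (t ω).Ok J R S k)
    (hred : RandReduces n σ₀ σ₁ p t) :
    η * (2 : ℝ) ^ (η * ((n / B : ℕ) : ℝ) / (4 * k)) ≤
      2 * ((J * (2 * (R + S + 1)) ^ (2 * S + 3) : ℕ) : ℝ) := by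
  classical
  obtain ⟨hp, hp1, hx⟩ := hred
  obtain ⟨b, hb, hhit⟩ := exists_block hB hqB p t hp hp1 hd
  set Q := outside n B b with hQdef
  set m := Fintype.card (Free n Q) with hm
  have hmn : n / B ≤ m := card_block hb
  have hm0 : 0 < m := lt_of_lt_of_le (Nat.div_pos hnB hB) hmn
  obtain ⟨v₀⟩ : Nonempty (Free n Q) := Fintype.card_pos_iff.1 hm0
  have h2m : (0 : ℝ) < 2 ^ m := by positivity
  -- the probability of a correct answer
  let W : Ω → Finset (Free n Q → Bool) := fun ω =>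
    univ.filter fun y => ¬ CorrectOn (t ω) (inp n Q y)
  have hpt : ∀ y : Free n Q → Bool, (if odd y then σ₁ else σ₀) ≤
      ∑ ω, if CorrectOn (t ω) (inp n Q y) then p ω else 0 := by
    intro y
    have := hx (inp n Q y) (length_inp _ _ _)
    rw [count_inp] at this
    exact this
  have hwrong : ∑ ω, p ω * ((W ω).card : ℝ) ≤ 2 ^ m * (2 - σ₀ - σ₁) / 2 := by
    have e1 : ∀ ω, p ω * ((W ω).card : ℝ) = ∑ y : Free n Q → Bool,
        (p ω - if CorrectOn (t ω) (inp n Q y) then p ω else 0) := by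
      intro ω
      rw [card_filter]
      push_cast
      rw [mul_sum]
      refine sum_congr rfl fun y _ => ?_
      by_cases h : CorrectOn (t ω) (inp n Q y) <;> simp [h]
    rw [sum_congr rfl fun ω _ => e1 ω, sum_comm]
    have e2 : ∀ y : Free n Q → Bool,
        ∑ ω, (p ω - if CorrectOn (t ω) (inp n Q y) then p ω else 0) ≤
          1 - (if odd y then σ₁ else σ₀) := by
      intro y
      rw [sum_sub_distrib, hp1]
      linarith [hpt y]
    refine (sum_le_sum fun y _ => e2 y).trans ?_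
    rw [sum_sub_distrib, sum_const, card_univ, Fintype.card_fun, Fintype.card_bool, ← hm,
      nsmul_eq_mul, mul_one, sum_ite, sum_const, sum_const, nsmul_eq_mul, nsmul_eq_mul]
    have o1 := card_odd v₀
    have o2 := card_filter_add_card_filter_not (s := (univ : Finset (Free n Q → Bool)))
      (fun y => odd y)
    rw [card_univ, Fintype.card_fun, Fintype.card_bool, ← hm] at o2
    rw [← hm] at o1
    have o1' : 2 * (((univ : Finset (Free n Q → Bool)).filter fun y => odd y).card : ℝ) = 2 ^ m := by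
      exact_mod_cast o1
    have o2' : (((univ : Finset (Free n Q → Bool)).filter fun y => odd y).card : ℝ) +
        (((univ : Finset (Free n Q → Bool)).filter fun y => ¬ odd y).card : ℝ) = 2 ^ m := by
      exact_mod_cast o2
    have o3 : (((univ : Finset (Free n Q → Bool)).filter fun y => odd y).card : ℝ) = 2 ^ m / 2 := by
      linarith
    have o4 : (((univ : Finset (Free n Q → Bool)).filter fun y => ¬ odd y).card : ℝ) = 2 ^ m / 2 := by
      linarith
    rw [o3, o4]
    push_cast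
    linarith
  -- the good trees
  let G : Finset Ω := univ.filter fun ω =>
    ¬ Hits B b (t ω) ∧ CorrectOn (t ω) (inp n Q fun _ => false)
  have hG : σ₀ - η ≤ ∑ ω ∈ G, p ω := by
    have e1 := hpt fun _ => false
    rw [if_neg (by simp)] at e1
    have e2 : ∀ ω, (if CorrectOn (t ω) (inp n Q fun _ => false) then p ω else 0) ≤
        (if Hits B b (t ω) then p ω else 0) +
        (if ¬ Hits B b (t ω) ∧ CorrectOn (t ω) (inp n Q fun _ => false) then p ω else 0) := by
      intro ω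
      by_cases h1 : Hits B b (t ω) <;>
        by_cases h2 : CorrectOn (t ω) (inp n Q fun _ => false) <;> simp [h1, h2, hp ω]
    have e3 := sum_le_sum fun ω (_ : ω ∈ (univ : Finset Ω)) => e2 ω
    have e4 : ∑ ω, (if ¬ Hits B b (t ω) ∧ CorrectOn (t ω) (inp n Q fun _ => false) then p ω else 0) =
        ∑ ω ∈ G, p ω := by
      rw [sum_filter]
    rw [sum_add_distrib, e4] at e3
    linarith
  have hG1 : ∑ ω ∈ G, p ω ≤ 1 := by
    rw [← hp1]
    exact sum_le_sum_of_subset_of_nonneg (filter_subset _ _) fun ω _ _ => hp ω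
  obtain ⟨ω, hω, hωW⟩ : ∃ ω ∈ G, 2 * ((W ω).card : ℝ) ≤ (1 - η) * 2 ^ m := by
    by_contra hcon
    push Not at hcon
    have e1 : ∑ ω ∈ G, p ω * ((1 - η) * 2 ^ m) ≤ ∑ ω ∈ G, p ω * (2 * ((W ω).card : ℝ)) :=
      sum_le_sum fun ω hω => mul_le_mul_of_nonneg_left (hcon ω hω).le (hp ω)
    have e2 : ∑ ω ∈ G, p ω * (2 * ((W ω).card : ℝ)) ≤ ∑ ω, p ω * (2 * ((W ω).card : ℝ)) :=
      sum_le_sum_of_subset_of_nonneg (filter_subset _ _) fun ω _ _ => by
        have := hp ω
        positivity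
    have e3 : ∑ ω, p ω * (2 * ((W ω).card : ℝ)) = 2 * ∑ ω, p ω * ((W ω).card : ℝ) := by
      rw [mul_sum]
      exact sum_congr rfl fun ω _ => by ring
    rw [← sum_mul] at e1
    have e5 : (∑ ω ∈ G, p ω) * (1 - η) ≤ 2 - σ₀ - σ₁ := by
      refine le_of_mul_le_mul_right ?_ h2m
      calc (∑ ω ∈ G, p ω) * (1 - η) * 2 ^ m = (∑ ω ∈ G, p ω) * ((1 - η) * 2 ^ m) := by ring
        _ ≤ 2 * (2 ^ m * (2 - σ₀ - σ₁) / 2) := by linarith
        _ = (2 - σ₀ - σ₁) * 2 ^ m := by ring
    have e6 : 0 ≤ (1 - ∑ ω ∈ G, p ω) * η := mul_nonneg (by linarith) hη.le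
    linarith
  obtain ⟨hω1, hω2⟩ := (mem_filter.1 hω).2
  have key := core hk (t ω) (ht ω) Q
    (fun j hj hjn => mem_outside.2 ⟨hjn, fun h => hω1 ⟨j, hj, h⟩⟩) hm0 hω2 (W ω)
    (fun y hy => by_contra fun h => hy (mem_filter.2 ⟨mem_univ _, h⟩)) ?_
  · rw [← hm] at key
    set θ : ℝ := 1 - 2 * ((W ω).card : ℝ) / 2 ^ m with hθ
    have h1 : η ≤ θ := by
      have : 2 * ((W ω).card : ℝ) / 2 ^ m ≤ 1 - η := by
        rw [div_le_iff₀ h2m]
        exact hωW
      linarith
    have h2 : η * ((n / B : ℕ) : ℝ) / (4 * k) ≤ θ * m / (4 * k) := by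
      have h3 : ((n / B : ℕ) : ℝ) ≤ m := by exact_mod_cast hmn
      have h4 : η * ((n / B : ℕ) : ℝ) ≤ θ * m :=
        mul_le_mul h1 h3 (Nat.cast_nonneg _) (hη.le.trans h1)
      exact div_le_div_of_nonneg_right h4 (by positivity)
    exact (mul_le_mul h1 (Real.rpow_le_rpow_of_exponent_le (by norm_num) h2) (by positivity)
      (hη.le.trans h1)).trans key
  · have h3 : 2 * ((W ω).card : ℝ) < 2 ^ m := by
      have : (1 - η) * 2 ^ m < 1 * 2 ^ m := mul_lt_mul_of_pos_right (by linarith) h2m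
      linarith
    rw [← hm]
    exact_mod_cast h3

end Pool.Agent.Lib.LocMCSP
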