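import Pool.Agent.Lib.MP_a221bc_loc.Rand

/-!
# Randomized local reductions from parity to MCSP: the asymptotic form
-/

namespace Pool.Agent.Lib.LocMCSP

open Pool.Agent.Lib.EsopHard Pool.Agent.Lib.MultiMCSP Filter Asymptotics

theorem rand_asym (σ₀ σ₁ δ κ l : ℝ) (C : ℕ) (hσ : 2 < 2 * σ₀ + σ₁) (hδ : 0 ≤ δ) (hκ : 0 ≤ κ)
    (hl : 0 ≤ l) (h1 : δ + κ + l < 1) :
    ∃ n₀ : ℕ, ∀ n ≥ n₀, ∀ (q J R S k : ℕ) (Ω : Type) [Fintype Ω] (p : Ω → ℝ) (t : Ω → Tree),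
      (q : ℝ) ≤ (n : ℝ) ^ l → J ≤ n ^ C → R ≤ n ^ C → (S : ℝ) ≤ (n : ℝ) ^ δ →
      (k : ℝ) ≤ (n : ℝ) ^ κ → (∀ ω, (t ω).depth ≤ q ∧ (t ω).Ok J R S k) →
      ¬ RandReduces n σ₀ σ₁ p t := by
  have hl2 : 0 < Real.log 2 := Real.log_pos (by norm_num)
  -- the constants
  obtain ⟨η, hη, hη1, hση⟩ : ∃ η : ℝ, 0 < η ∧ η ≤ 1 ∧ 2 + 2 * η < 2 * σ₀ + σ₁ := by
    refine ⟨min ((2 * σ₀ + σ₁ - 2) / 4) 1, lt_min (by linarith) one_pos, min_le_right _ _, ?_⟩
    have := min_le_left ((2 * σ₀ + σ₁ - 2) / 4) 1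
    linarith
  set c₁ : ℝ := 1 / η + 2 with hc₁
  have hc₁0 : 0 < c₁ := by positivity
  set a : ℝ := |Real.log η| / Real.log 2 with ha
  have ha0 : 0 ≤ a := by positivity
  set E : ℝ := 6 * C + 21 + a with hE
  have hE1 : 1 ≤ E := by
    have : (0 : ℝ) ≤ C := Nat.cast_nonneg C
    linarith
  have hE0 : 0 < E := by linarith
  set c : ℝ := η * Real.log 2 / (16 * c₁ * E) with hc
  have hc0 : 0 < c := by positivity
  have hlo := (isLittleO_log_rpow_atTop (show 0 < 1 - δ - κ - l by linarith)).bound hc0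
  have hev : ∀ᶠ n : ℕ in atTop, ‖Real.log (n : ℝ)‖ ≤ c * ‖((n : ℝ)) ^ (1 - δ - κ - l)‖ :=
    tendsto_natCast_atTop_atTop.eventually hlo
  obtain ⟨n₁, hn₁⟩ := eventually_atTop.1 hev
  refine ⟨max n₁ 4, fun n hn q J R S k Ω _ p t hq hJ hR hS hk ht hred => ?_⟩
  have hn4 : 4 ≤ n := (le_max_right _ _).trans hn
  have hn' := hn₁ n ((le_max_left _ _).trans hn)
  have hnR : (4 : ℝ) ≤ n := by exact_mod_cast hn4
  have hn0 : (0 : ℝ) < n := by linarith
  have hn1 : (1 : ℝ) ≤ n := by linarith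
  have hlog0 : 0 ≤ Real.log n := Real.log_nonneg hn1
  have hlog2 : Real.log 2 ≤ Real.log n := Real.log_le_log (by norm_num) (by linarith)
  rw [Real.norm_of_nonneg hlog0, Real.norm_of_nonneg (by positivity)] at hn'
  have h1δ : 1 ≤ (n : ℝ) ^ δ := Real.one_le_rpow hn1 hδ
  have h1κ : 1 ≤ (n : ℝ) ^ κ := Real.one_le_rpow hn1 hκ
  have h1l : 1 ≤ (n : ℝ) ^ l := Real.one_le_rpow hn1 hl
  -- the number of blocks
  set B : ℕ := ⌈(n : ℝ) ^ l / η⌉₊ + 1 with hB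
  have hB1 : 1 ≤ B := Nat.le_add_left ..
  have hBlow : (n : ℝ) ^ l ≤ η * B := by
    have h2 : (n : ℝ) ^ l / η ≤ B := by
      rw [hB]
      push_cast
      have := Nat.le_ceil ((n : ℝ) ^ l / η)
      linarith
    rwa [div_le_iff₀ hη, mul_comm] at h2
  have hBup : (B : ℝ) ≤ c₁ * (n : ℝ) ^ l := by
    have h2 := Nat.ceil_lt_add_one (show 0 ≤ (n : ℝ) ^ l / η by positivity)
    have h3 : (B : ℝ) ≤ (n : ℝ) ^ l / η + 2 := by
      rw [hB]
      push_cast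
      linarith
    have h4 : c₁ * (n : ℝ) ^ l = (n : ℝ) ^ l / η + 2 * (n : ℝ) ^ l := by
      rw [hc₁]
      ring
    linarith
  -- powers
  have e1 : (n : ℝ) ^ l * (n : ℝ) ^ (1 - l) = n := by
    rw [← Real.rpow_add hn0, show l + (1 - l) = 1 by ring, Real.rpow_one]
  have e2 : (n : ℝ) ^ κ * (n : ℝ) ^ δ * (n : ℝ) ^ (1 - δ - κ - l) = (n : ℝ) ^ (1 - l) := by
    rw [← Real.rpow_add hn0, ← Real.rpow_add hn0]
    congr 1
    ring
  have e3 : (n : ℝ) ^ (1 - δ - κ - l) ≤ (n : ℝ) ^ (1 - l) :=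
    Real.rpow_le_rpow_of_exponent_le hn1 (by linarith)
  have hcc : c * c₁ ≤ Real.log 2 := by
    rw [hc, div_mul_eq_mul_div, div_le_iff₀ (by positivity)]
    have g1 : η * Real.log 2 * c₁ ≤ 1 * Real.log 2 * c₁ := by
      apply mul_le_mul_of_nonneg_right (mul_le_mul_of_nonneg_right hη1 hl2.le) hc₁0.le
    have g2 : Real.log 2 * c₁ * 1 ≤ Real.log 2 * c₁ * (16 * E) :=
      mul_le_mul_of_nonneg_left (by linarith) (by positivity)
    calc η * Real.log 2 * c₁ ≤ Real.log 2 * c₁ * 1 := by linarith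
      _ ≤ Real.log 2 * c₁ * (16 * E) := g2
      _ = Real.log 2 * (16 * c₁ * E) := by ring
  have e4 : c₁ ≤ (n : ℝ) ^ (1 - l) := by
    have g1 : c * c₁ ≤ c * (n : ℝ) ^ (1 - δ - κ - l) := hcc.trans (hlog2.trans hn')
    exact (le_of_mul_le_mul_left g1 hc0).trans e3
  have hBn : B ≤ n := by
    have : (B : ℝ) ≤ n := by
      calc (B : ℝ) ≤ c₁ * (n : ℝ) ^ l := hBup
        _ ≤ (n : ℝ) ^ (1 - l) * (n : ℝ) ^ l := mul_le_mul_of_nonneg_right e4 (by positivity)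
        _ = n := by rw [mul_comm, e1]
    exact_mod_cast this
  -- the size of a block
  have hdiv : (n : ℝ) ^ (1 - l) ≤ 2 * c₁ * ((n / B : ℕ) : ℝ) := by
    have g1 : n < B * (n / B + 1) := Nat.lt_mul_div_succ n (by omega)
    have g2 : 1 ≤ n / B := Nat.div_pos hBn hB1
    have g3 : n ≤ B * (2 * (n / B)) := g1.le.trans (Nat.mul_le_mul_left B (by omega))
    have g4 : (n : ℝ) ≤ B * (2 * ((n / B : ℕ) : ℝ)) := by exact_mod_cast g3
    have g5 : (n : ℝ) ^ l * (n : ℝ) ^ (1 - l) ≤ (n : ℝ) ^ l * (2 * c₁ * ((n / B : ℕ) : ℝ)) := by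
      rw [e1]
      calc (n : ℝ) ≤ B * (2 * ((n / B : ℕ) : ℝ)) := g4
        _ ≤ (c₁ * (n : ℝ) ^ l) * (2 * ((n / B : ℕ) : ℝ)) :=
          mul_le_mul_of_nonneg_right hBup (by positivity)
        _ = _ := by ring
    exact le_of_mul_le_mul_left g5 (by positivity)
  -- the inequality
  have hk1 : (((max k 1 : ℕ)) : ℝ) ≤ (n : ℝ) ^ κ := by
    push_cast
    exact max_le hk h1κ
  have hm := rand_core (k := max k 1) (le_max_right _ _) hB1 hη hση (hq.trans hBlow) hBn p t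
    (fun ω => (ht ω).1) (fun ω => (ht ω).2.mono (le_max_left _ _)) hred
  have hKpos : (0 : ℝ) < ((max k 1 : ℕ) : ℝ) := by
    exact_mod_cast lt_of_lt_of_le one_pos (le_max_right k 1)
  have hJ0 : J ≠ 0 := by
    rintro rfl
    rw [Nat.zero_mul, Nat.cast_zero, mul_zero] at hm
    have : 0 < η * (2 : ℝ) ^ (η * ((n / B : ℕ) : ℝ) / (4 * ((max k 1 : ℕ) : ℝ))) := by positivity
    linarith
  have hJ' : (J : ℝ) ≠ 0 := by exact_mod_cast hJ0
  have hlog := Real.log_le_log (by positivity) hm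
  push_cast at hlog
  rw [Real.log_mul hη.ne' (by positivity), Real.log_rpow (by norm_num),
    Real.log_mul (by norm_num) (by positivity), Real.log_mul hJ' (by positivity),
    Real.log_pow] at hlog
  push_cast at hlog
  have b3 := log_bound C hδ (by linarith) hn4 hJ hR hS
  have f1 : -Real.log η ≤ a * ((n : ℝ) ^ δ * Real.log n) := by
    have g1 : -Real.log η ≤ |Real.log η| := neg_le_abs _
    have g2 : |Real.log η| = a * Real.log 2 := by
      rw [ha]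
      field_simp
    have g3 : Real.log 2 ≤ (n : ℝ) ^ δ * Real.log n := by
      calc Real.log 2 ≤ 1 * Real.log n := by linarith
        _ ≤ _ := mul_le_mul_of_nonneg_right h1δ hlog0
    calc -Real.log η ≤ a * Real.log 2 := by linarith
      _ ≤ _ := mul_le_mul_of_nonneg_left g3 ha0
  have f2 : η * ((n / B : ℕ) : ℝ) / (4 * ((max k 1 : ℕ) : ℝ)) * Real.log 2 ≤
      E * ((n : ℝ) ^ δ * Real.log n) := by
    have : E * ((n : ℝ) ^ δ * Real.log n) = (6 * C + 21) * ((n : ℝ) ^ δ * Real.log n) +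
        a * ((n : ℝ) ^ δ * Real.log n) := by
      rw [hE]
      ring
    push_cast
    linarith
  have f3 : η * ((n / B : ℕ) : ℝ) * Real.log 2 ≤
      4 * (n : ℝ) ^ κ * (E * ((n : ℝ) ^ δ * Real.log n)) := by
    have g1 : η * ((n / B : ℕ) : ℝ) / (4 * ((max k 1 : ℕ) : ℝ)) * Real.log 2 =
        η * ((n / B : ℕ) : ℝ) * Real.log 2 / (4 * ((max k 1 : ℕ) : ℝ)) := by ring
    rw [g1, div_le_iff₀ (by positivity)] at f2
    have g2 : 0 ≤ E * ((n : ℝ) ^ δ * Real.log n) := by positivity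
    calc η * ((n / B : ℕ) : ℝ) * Real.log 2 ≤
          E * ((n : ℝ) ^ δ * Real.log n) * (4 * ((max k 1 : ℕ) : ℝ)) := f2
      _ ≤ E * ((n : ℝ) ^ δ * Real.log n) * (4 * (n : ℝ) ^ κ) :=
          mul_le_mul_of_nonneg_left (by linarith) g2
      _ = _ := by ring
  have f4 : 4 * (n : ℝ) ^ κ * (E * ((n : ℝ) ^ δ * Real.log n)) ≤ 4 * E * c * (n : ℝ) ^ (1 - l) := by
    calc 4 * (n : ℝ) ^ κ * (E * ((n : ℝ) ^ δ * Real.log n)) =
          4 * E * ((n : ℝ) ^ κ * (n : ℝ) ^ δ) * Real.log n := by ring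
      _ ≤ 4 * E * ((n : ℝ) ^ κ * (n : ℝ) ^ δ) * (c * (n : ℝ) ^ (1 - δ - κ - l)) :=
          mul_le_mul_of_nonneg_left hn' (by positivity)
      _ = 4 * E * c * ((n : ℝ) ^ κ * (n : ℝ) ^ δ * (n : ℝ) ^ (1 - δ - κ - l)) := by ring
      _ = 4 * E * c * (n : ℝ) ^ (1 - l) := by rw [e2]
  have f5 : 4 * E * c = η * Real.log 2 / (4 * c₁) := by
    rw [hc]
    field_simp
    ring
  have f6 : η * Real.log 2 / (2 * c₁) * (n : ℝ) ^ (1 - l) ≤ η * ((n / B : ℕ) : ℝ) * Real.log 2 := by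
    calc η * Real.log 2 / (2 * c₁) * (n : ℝ) ^ (1 - l) ≤
          η * Real.log 2 / (2 * c₁) * (2 * c₁ * ((n / B : ℕ) : ℝ)) :=
          mul_le_mul_of_nonneg_left hdiv (by positivity)
      _ = η * ((n / B : ℕ) : ℝ) * Real.log 2 := by
          field_simp
  rw [f5] at f4
  have f7 : η * Real.log 2 / (2 * c₁) * (n : ℝ) ^ (1 - l) ≤
      η * Real.log 2 / (4 * c₁) * (n : ℝ) ^ (1 - l) := f6.trans (f3.trans f4)
  have f8 : η * Real.log 2 / (4 * c₁) < η * Real.log 2 / (2 * c₁) := by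
    apply div_lt_div_of_pos_left (by positivity) (by positivity)
    linarith
  have f9 : 0 < (n : ℝ) ^ (1 - l) := by positivity
  exact absurd (le_of_mul_le_mul_right f7 f9) (not_le.2 f8)

end Pool.Agent.Lib.LocMCSP
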