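import Pool.Agent.Lib.MP_a221bc_multi.Statement

/-!
# Local reductions to the minimum circuit size problem: statement

Many-one reductions (and disjunctive truth-table reductions) all of whose output bits are computed
by small circuits that can query single bits of the input.
-/

namespace Pool.Agent.Lib.LocMCSP

open Pool.Agent.Lib.EsopHard Pool.Agent.Lib.MultiMCSP

/-! ## Circuit size -/

/-- The Boolean function with `r` variables and truth table `T` has a circuit with at most `s`
gates (AND, OR, NOT, fan-in at most two, all gates counted; the output may be any wire). -/
def HasCircuit (r : ℕ) (T : List Bool) (s : ℕ) : Prop :=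
  ∃ gs : List Gate, IsCircuit r gs ∧ gs.length ≤ s ∧ Computes r gs [T]

/-! ## Query circuits -/

/-- The number with the given binary digits, the lowest first. -/
def num : List Bool → ℕ
  | [] => 0
  | b :: l => (if b = true then 1 else 0) + 2 * num l

/-- A gate of a query circuit: an ordinary gate, or a gate which queries one bit of the input `x`
of the reduction; the address of the bit is read, in binary, from the wires of the list `a`. -/
inductive QGate
  | gate (g : Gate)
  | query (a : List ℕ)

/-- The value of a gate of a query circuit; `x` is the input of the reduction, and `w` is the list
of the values of the earlier wires. -/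
def QGate.val (x : List Bool) : QGate → List Bool → Bool
  | .gate g, w => g.val w
  | .query a, w => x.getD (num (a.map fun i => w.getD i false)) false

/-- All the wires used by the gate are among the first `m` wires. -/
def QGate.Ok : QGate → ℕ → Prop
  | .gate g, m => g.Ok m
  | .query a, m => ∀ i ∈ a, i < m

/-- The gate is a query. -/
def QGate.isQuery : QGate → Bool
  | .gate _ => false
  | .query _ => true

/-- The values of all the wires of the query circuit `gs` at the point `y`, when the input of the
reduction is `x`. -/
def qwires (x : List Bool) (gs : List QGate) (y : List Bool) : List Bool :=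
  gs.foldl (fun w g => w ++ [g.val x w]) y

/-! ## Local reductions -/

/-- One instance of MCSP which depends on the input of the reduction: the number `r` of variables,
the size `s`, and a query circuit with the output wire `out`, which computes the truth table. -/
structure Inst where
  /-- number of variables of the function -/
  r : ℕ
  /-- the size asked for -/
  s : ℕ
  /-- the gates of the query circuit -/
  gs : List QGate
  /-- its output wire -/
  out : ℕ

/-- The truth table of the instance, when the input of the reduction is `x`. -/
def Inst.table (I : Inst) (x : List Bool) : List Bool :=
  (points I.r).map fun y => (qwires x I.gs y).getD I.out false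

/-- The instance is well-formed: at most `R` variables, a query circuit with at most `S` gates of
which at most `k` are queries. -/
structure Inst.Ok (I : Inst) (R S k : ℕ) : Prop where
  /-- at most `R` variables -/
  vars : I.r ≤ R
  /-- gates use earlier wires -/
  wires : ∀ (m : ℕ) (h : m < I.gs.length), I.gs[m].Ok (I.r + m)
  /-- at most `S` gates -/
  size : I.gs.length ≤ S
  /-- at most `k` queries -/
  queries : I.gs.countP QGate.isQuery ≤ k
  /-- the output is a wire -/
  out : I.out < I.r + I.gs.length

/-- A decision tree: it probes single bits of the input and ends with a list of instances. -/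
inductive Tree
  | leaf (l : List Inst)
  | node (j : ℕ) (t₀ t₁ : Tree)

/-- The depth of a decision tree. -/
def Tree.depth : Tree → ℕ
  | .leaf _ => 0
  | .node _ t₀ t₁ => max t₀.depth t₁.depth + 1

/-- The list of instances at the leaf reached by the input `x`. -/
def Tree.eval : Tree → List Bool → List Inst
  | .leaf l, _ => l
  | .node j t₀ t₁, x => if x.getD j false = true then t₁.eval x else t₀.eval x

/-- All the leaves of the tree have at most `J` instances, all well-formed. -/
def Tree.Ok (J R S k : ℕ) : Tree → Prop
  | .leaf l => l.length ≤ J ∧ ∀ I ∈ l, I.Ok R S k
  | .node _ t₀ t₁ => t₀.Ok J R S k ∧ t₁.Ok J R S k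

/-- The tree gives the correct answer on the input `x`: the number of ones of `x` is odd iff some
instance at the leaf of `x` has the answer yes. -/
def CorrectOn (t : Tree) (x : List Bool) : Prop :=
  x.count true % 2 = 1 ↔ ∃ I ∈ t.eval x, HasCircuit I.r (I.table x) I.s

/-- The tree is a correct (deterministic) reduction from the parity of `n` bits to MCSP. -/
def Reduces (n : ℕ) (t : Tree) : Prop := ∀ x : List Bool, x.length = n → CorrectOn t x

open Classical in
/-- The random tree `t` (it is `t ω` with the probability `p ω`) is a randomized reduction from the
parity of `n` bits to MCSP: on every input `x` in `{0, 1} ^ n` its answer is correct with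
probability at least `σ₀` if the number of ones of `x` is even, and at least `σ₁` if it is odd. -/
def RandReduces (n : ℕ) (σ₀ σ₁ : ℝ) {Ω : Type} [Fintype Ω] (p : Ω → ℝ) (t : Ω → Tree) : Prop :=
  (∀ ω, 0 ≤ p ω) ∧ ∑ ω, p ω = 1 ∧
    ∀ x : List Bool, x.length = n →
      (if x.count true % 2 = 1 then σ₁ else σ₀) ≤ ∑ ω, if CorrectOn (t ω) x then p ω else 0

end Pool.Agent.Lib.LocMCSP
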